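import Pool.Agent.U899.MM.ArithR

set_option autoImplicit false

/-! The classical arithmetic factor. -/

namespace Pool.Agent.U899.MM

open MeasureTheory Filter Topology Finset Complex
open Pool.Agent.N748.MG Pool.Agent.N748.MJ

/-- the classical local factor -/
noncomputable def cl (k : ℝ) (p : ℕ) : ℝ :=
  (1 - 1 / (p : ℝ)) ^ (k ^ 2) * ∑' r : ℕ, (∏ i ∈ Finset.range r, (k + i) / ((i : ℝ) + 1)) ^ 2 / (p : ℝ) ^ r

theorem cf_one (k : ℝ) (p r : ℕ) :
    cf k (fun _ : Fin 1 => (0:ℝ)) p r = ((∏ i ∈ Finset.range r, (k + i) / ((i : ℝ) + 1) : ℝ) : ℂ) := by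
  have h1 : Finset.piAntidiag (Finset.univ : Finset (Fin 1)) r = {fun _ => r} := by
    ext μ
    simp only [Finset.mem_piAntidiag, Finset.mem_singleton,
      Finset.univ_unique, Fin.default_eq_zero, Fin.isValue, Finset.sum_singleton]
    constructor
    · intro h
      funext j
      rw [Subsingleton.elim j 0, h.1]
    · intro h
      rw [h]
      exact ⟨rfl, fun i _ => Subsingleton.elim _ _⟩
  unfold cf
  rw [h1, Finset.sum_singleton]
  simp

theorem lf_one (k : ℝ) {p : ℕ} (hp : 2 ≤ p) : lf k (fun _ : Fin 1 => (0:ℝ)) p = cl k p := by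
  unfold lf cl
  congr 1
  · simp only [Finset.univ_unique, Fin.default_eq_zero, Fin.isValue, Finset.prod_singleton, sub_self,
      Complex.ofReal_zero, zero_mul, add_zero, Complex.cpow_neg_one]
    have h1 : (1 - (p : ℂ)⁻¹) = ((1 - 1 / (p:ℝ) : ℝ) : ℂ) := by push_cast; simp
    have h2 : 0 ≤ 1 - 1 / (p:ℝ) := by
      have : (1:ℝ) / p ≤ 1 := by
        rw [div_le_one (by positivity)]
        exact_mod_cast (by omega : 1 ≤ p)
      linarith
    rw [h1, Complex.norm_real, Real.norm_of_nonneg h2, ← pow_two]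
  · refine tsum_congr fun r => ?_
    rw [cf_one, Complex.norm_real, Real.norm_eq_abs, sq_abs, div_eq_mul_inv]

theorem cls (hG : S_GVB) (h0 : S_AV0) (β : ℝ) (m : ℕ) (c : ℝ) :
    AA β (fun _ : Fin m => c) = ∏' p : Nat.Primes, cl (m * β) p := by
  have h1 := AA_diag h0 β m c
  have h2 := AA_diag h0 (m * β) 1 0
  rw [h1]
  have h3 : (((1:ℕ) * (m * β) : ℝ) : ℂ) = ((m * β : ℝ) : ℂ) := by push_cast; ring
  rw [h3] at h2
  rw [← h2, AA_eq hG]
  exact tprod_congr fun p => lf_one _ (Nat.Prime.two_le p.2)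

end Pool.Agent.U899.MM
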