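import Pool.Agent.U899.MM.Sub

set_option autoImplicit false

/-! Lebesgue measure on an interval has a bounded Riesz potential of every order less than one. -/

namespace Pool.Agent.U899.MM

open MeasureTheory Filter Topology Finset
open scoped ENNReal NNReal

theorem rk_neg (a u : ℝ) : rk a (-u) = rk a u := by unfold rk; rw [abs_neg]

theorem half_int {a : ℝ} (ha1 : a < 1) : ∫⁻ u in Set.Ioc (0:ℝ) 1, rk a u < ⊤ := by
  have h1 : IntervalIntegrable (fun x : ℝ => x ^ (-a)) volume 0 1 := intervalIntegral.intervalIntegrable_rpow' (by linarith)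
  rw [intervalIntegrable_iff_integrableOn_Ioc_of_le zero_le_one] at h1
  have h2 : ∫⁻ u in Set.Ioc (0:ℝ) 1, rk a u = ∫⁻ u in Set.Ioc (0:ℝ) 1, ENNReal.ofReal (u ^ (-a)) := by
    refine setLIntegral_congr_fun measurableSet_Ioc fun u hu => ?_
    unfold rk
    rw [abs_of_pos hu.1, ENNReal.ofReal_rpow_of_pos hu.1]
  rw [h2]
  exact h1.lintegral_lt_top

theorem unit_int {a : ℝ} (ha1 : a < 1) : ∫⁻ u in Set.Icc (-1:ℝ) 1, rk a u < ⊤ := by
  have h1 : ∫⁻ u in Set.Icc (-1:ℝ) 1, rk a u ≤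
      (∫⁻ u in Set.Icc (-1:ℝ) 0, rk a u) + ∫⁻ u in Set.Ioc (0:ℝ) 1, rk a u := by
    rw [← Set.Icc_union_Ioc_eq_Icc (by norm_num : (-1:ℝ) ≤ 0) (by norm_num : (0:ℝ) ≤ 1)]
    exact lintegral_union_le _ _ _
  have h2 : ∫⁻ u in Set.Icc (-1:ℝ) 0, rk a u = ∫⁻ u in Set.Icc (0:ℝ) 1, rk a u := by
    have h3 := (Measure.measurePreserving_neg (volume : Measure ℝ)).setLIntegral_comp_preimage
      (s := Set.Icc (-1:ℝ) 0) measurableSet_Icc (rk_meas a)
    rw [← h3]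
    have h4 : (Neg.neg ⁻¹' Set.Icc (-1:ℝ) 0 : Set ℝ) = Set.Icc 0 1 := by
      ext x; simp only [Set.mem_preimage, Set.mem_Icc]; constructor <;> intro h <;> constructor <;> linarith [h.1, h.2]
    rw [h4]
    simp only [rk_neg]
  have h5 : ∫⁻ u in Set.Icc (0:ℝ) 1, rk a u = ∫⁻ u in Set.Ioc (0:ℝ) 1, rk a u :=
    setLIntegral_congr Ioc_ae_eq_Icc.symm
  rw [h2, h5] at h1
  have h6 := half_int ha1
  exact h1.trans_lt (ENNReal.add_lt_top.2 ⟨h6, h6⟩)

theorem riesz_leb {a : ℝ} (ha : 0 < a) (ha1 : a < 1) (B : ℝ) : Riesz a (volume.restrict (Set.Icc 0 B)) := by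
  set K : ℝ≥0∞ := ∫⁻ u in Set.Icc (-1:ℝ) 1, rk a u with hK
  have hKt : K < ⊤ := unit_int ha1
  have hBt : volume (Set.Icc (0:ℝ) B) < ⊤ := by simp [Real.volume_Icc]
  refine ⟨(K + volume (Set.Icc (0:ℝ) B)).toNNReal, fun x => ?_⟩
  rw [ENNReal.coe_toNNReal (ENNReal.add_lt_top.2 ⟨hKt, hBt⟩).ne]
  have h1 : ∀ y : ℝ, rk a (x - y) ≤ (Set.Icc (-1:ℝ) 1).indicator (rk a) (x - y) + 1 := by
    intro y
    by_cases hy : x - y ∈ Set.Icc (-1:ℝ) 1
    · rw [Set.indicator_of_mem hy]; exact le_self_add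
    · rw [Set.indicator_of_notMem hy, zero_add]
      have h2 : 1 ≤ |x - y| := by
        by_contra hcon
        push Not at hcon
        exact hy ⟨(abs_lt.1 hcon).1.le, (abs_lt.1 hcon).2.le⟩
      unfold rk
      rw [ENNReal.rpow_neg, ENNReal.inv_le_one]
      have h3 : (1 : ℝ≥0∞) ≤ ENNReal.ofReal |x - y| := by
        rw [← ENNReal.ofReal_one]; exact ENNReal.ofReal_le_ofReal h2
      exact ENNReal.one_le_rpow h3 ha
  calc ∫⁻ y in Set.Icc 0 B, rk a (x - y) ≤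
      ∫⁻ y in Set.Icc 0 B, ((Set.Icc (-1:ℝ) 1).indicator (rk a) (x - y) + 1) := lintegral_mono h1
    _ = (∫⁻ y in Set.Icc 0 B, (Set.Icc (-1:ℝ) 1).indicator (rk a) (x - y)) + volume (Set.Icc (0:ℝ) B) := by
        rw [lintegral_add_right _ measurable_const, lintegral_one, Measure.restrict_apply_univ]
    _ ≤ (∫⁻ y, (Set.Icc (-1:ℝ) 1).indicator (rk a) (x - y)) + volume (Set.Icc (0:ℝ) B) :=
        add_le_add_left (setLIntegral_le_lintegral _ _) _
    _ = _ := by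
        rw [lintegral_sub_left_eq_self, lintegral_indicator measurableSet_Icc]

end Pool.Agent.U899.MM
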