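import Pool.Agent.N748.MJ.Stm

set_option autoImplicit false

/-! The arithmetic factor: translation invariance, bounds. -/

namespace Pool.Agent.U899.MM

open MeasureTheory Filter Topology Finset Complex
open Pool.Agent.N748.MG Pool.Agent.N748.MJ

theorem lV_shift {m : ℕ} (s : Fin m → ℂ) (h : Fin m → ℝ) (c : ℝ) {q : ℕ} (hq : q ≠ 0) (k : ℕ) :
    lV s (fun j => h j + c) q k = (q : ℂ) ^ (-((k * c : ℝ) * I)) * lV s h q k := by
  have hq' : (q : ℂ) ≠ 0 := by exact_mod_cast hq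
  unfold lV
  rw [Finset.mul_sum]
  refine Finset.sum_congr rfl fun μ hμ => ?_
  have h1 : ∑ j, μ j = k := by
    have := (Finset.mem_piAntidiag.1 hμ).1
    simpa using this
  have h2 : ∏ j : Fin m, (q : ℂ) ^ (-((μ j * c : ℝ) * I)) = (q : ℂ) ^ (-((k * c : ℝ) * I)) := by
    simp only [Complex.cpow_def_of_ne_zero hq']
    rw [← Complex.exp_sum, ← Finset.mul_sum]
    congr 2
    rw [← h1]
    push_cast
    rw [Finset.sum_neg_distrib, Finset.sum_mul, Finset.sum_mul]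
  rw [← h2, ← Finset.prod_mul_distrib]
  refine Finset.prod_congr rfl fun j _ => ?_
  have h3 : (q : ℂ) ^ (-((μ j * (h j + c) : ℝ) * I)) =
      (q : ℂ) ^ (-((μ j * c : ℝ) * I)) * (q : ℂ) ^ (-((μ j * h j : ℝ) * I)) := by
    rw [← Complex.cpow_add _ _ hq']
    congr 1
    push_cast
    ring
  rw [h3]
  ring

theorem norm_one {q : ℕ} (hq : q ≠ 0) (c : ℝ) : ‖(q : ℂ) ^ (-((c : ℝ) * I))‖ = 1 := by
  rw [Complex.norm_natCast_cpow_of_pos (Nat.pos_of_ne_zero hq)]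
  simp

theorem gV_shift {m : ℕ} (s r : Fin m → ℂ) (h : Fin m → ℝ) (c δ : ℝ) {p : ℕ} (hp : p ≠ 0) :
    gV s r (fun j => h j + c) δ p = gV s r h δ p := by
  unfold gV
  simp only [add_sub_add_right_eq_sub]
  congr 1
  refine tsum_congr fun k => ?_
  rw [lV_shift s h c hp, lV_shift (cj r) h c hp, map_mul]
  have h1 : (p : ℂ) ^ (-((k * c : ℝ) * I)) * (starRingEnd ℂ) ((p : ℂ) ^ (-((k * c : ℝ) * I))) = 1 := by
    rw [Complex.mul_conj, Complex.normSq_eq_norm_sq, norm_one hp]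
    simp
  calc _ = ((p : ℂ) ^ (-((k * c : ℝ) * I)) * (starRingEnd ℂ) ((p : ℂ) ^ (-((k * c : ℝ) * I)))) *
      (lV s h p k * (starRingEnd ℂ) (lV (cj r) h p k)) * (((p:ℝ) ^ (-(1 + 2 * δ)) : ℝ) : ℂ) ^ k := by ring
    _ = _ := by rw [h1, one_mul]

theorem aV_shift {m : ℕ} (s r : Fin m → ℂ) (h : Fin m → ℝ) (c : ℝ) :
    aV s r (fun j => h j + c) = aV s r h := by
  have h1 : ∀ p : Nat.Primes, gV s r (fun j => h j + c) 0 (p : ℕ) = gV s r h 0 (p : ℕ) := fun p =>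
    gV_shift s r h c 0 (Nat.Prime.ne_zero p.2)
  unfold aV
  simp only [h1]

/-- the arithmetic factor with equal exponents -/
noncomputable def AA (β : ℝ) {m : ℕ} (h : Fin m → ℝ) : ℝ := (aV (fun _ => (β : ℂ)) (fun _ => (β : ℂ)) h).re

theorem AA_cont (h : S_CONV) (β : ℝ) (m : ℕ) : Continuous (AA β (m := m)) := by
  have h1 : Continuous fun x : Fin m → ℝ =>
      (((fun _ => (β : ℂ)) : Fin m → ℂ), ((fun _ => (β : ℂ)) : Fin m → ℂ), x) :=
    continuous_const.prodMk (continuous_const.prodMk continuous_id)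
  have h2 := (h m).comp h1
  have h3 := Complex.continuous_re.comp h2
  exact h3

theorem AA_bd (h : S_POSV) (β : ℝ) (m : ℕ) : ∃ c C : ℝ, 0 < c ∧ ∀ x : Fin m → ℝ, c ≤ AA β x ∧ |AA β x| ≤ C := by
  obtain ⟨c, C, hc, hC, h1⟩ := h m |β| (abs_nonneg β)
  refine ⟨c, C, hc, fun x => ?_⟩
  obtain ⟨h2, h3⟩ := h1 x
  constructor
  · obtain ⟨a, ha, ha2⟩ := h3 (fun _ => β) (fun _ => le_rfl)
    unfold AA
    rw [ha2]
    simpa using ha
  · exact (Complex.abs_re_le_norm _).trans (h2 _ _ (fun _ => by simp) (fun _ => by simp))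

theorem AA_diag (h : S_AV0) (β : ℝ) (m : ℕ) (c : ℝ) : AA β (fun _ : Fin m => c) = (aC ((m * β : ℝ) : ℂ)).re := by
  unfold AA
  have h1 := aV_shift (m := m) (fun _ => (β : ℂ)) (fun _ => (β : ℂ)) (fun _ => 0) c
  simp only [zero_add] at h1
  rw [h1, h m _ _ rfl]
  congr 2
  simp

end Pool.Agent.U899.MM
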