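import Pool.Agent.U899.MM.Arith

set_option autoImplicit false

/-! The arithmetic factor in real form. -/

namespace Pool.Agent.U899.MM

open MeasureTheory Filter Topology Finset Complex
open Pool.Agent.N748.MG Pool.Agent.N748.MJ

/-- the coefficient of `x^k` in `∏_j (1 - x p^(-i h_j))^(-β)` -/
noncomputable def cf (β : ℝ) {m : ℕ} (h : Fin m → ℝ) (p k : ℕ) : ℂ :=
  ∑ μ ∈ Finset.piAntidiag (Finset.univ : Finset (Fin m)) k,
    ∏ j, ((∏ i ∈ Finset.range (μ j), (β + i) / ((i : ℝ) + 1) : ℝ) : ℂ) * (p : ℂ) ^ (-((μ j * h j : ℝ) * I))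

theorem lV_eq (β : ℝ) {m : ℕ} (h : Fin m → ℝ) (p k : ℕ) : lV (fun _ => (β : ℂ)) h p k = cf β h p k := by
  unfold lV cf lC
  refine Finset.sum_congr rfl fun μ _ => Finset.prod_congr rfl fun j _ => ?_
  congr 1
  push_cast
  rfl

/-- the local factor -/
noncomputable def lf (β : ℝ) {m : ℕ} (h : Fin m → ℝ) (p : ℕ) : ℝ :=
  (∏ j, ∏ l, ‖1 - (p : ℂ) ^ (-(1 + ((h j - h l : ℝ) : ℂ) * I))‖ ^ (β * β)) *
    ∑' k : ℕ, ‖cf β h p k‖ ^ 2 * ((p : ℝ) ^ k)⁻¹

/-- `1 - p^(-1 - i u)` -/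
noncomputable def zz (p : ℕ) (u : ℝ) : ℂ := 1 - (p : ℂ) ^ (-(1 + (u : ℂ) * I))

theorem zz_re {p : ℕ} (hp : 2 ≤ p) (u : ℝ) : 0 < (zz p u).re := by
  have h1 : ‖(p : ℂ) ^ (-(1 + (u : ℂ) * I))‖ = (p : ℝ)⁻¹ := by
    rw [Complex.norm_natCast_cpow_of_pos (by omega)]
    simp [Real.rpow_neg_one]
  have h2 : ((p : ℂ) ^ (-(1 + (u : ℂ) * I))).re ≤ (p : ℝ)⁻¹ := h1 ▸ Complex.re_le_norm _
  have h3 : (p : ℝ)⁻¹ ≤ 1 / 2 := by
    rw [one_div]
    exact inv_anti₀ (by norm_num) (by exact_mod_cast hp)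
  unfold zz
  rw [Complex.sub_re, Complex.one_re]
  linarith

theorem zz_conj {p : ℕ} (u : ℝ) : zz p (-u) = (starRingEnd ℂ) (zz p u) := by
  unfold zz
  rw [map_sub, map_one]
  congr 1
  have h1 : ((p : ℂ)).arg ≠ Real.pi := by
    rw [Complex.natCast_arg]
    exact Real.pi_pos.ne
  have h2 := Complex.cpow_conj (p : ℂ) (-(1 + (u : ℂ) * I)) h1
  rw [Complex.conj_natCast] at h2
  rw [← h2]
  congr 1
  simp

theorem log_zz {p : ℕ} (hp : 2 ≤ p) (u : ℝ) : Complex.log (zz p (-u)) = (starRingEnd ℂ) (Complex.log (zz p u)) := by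
  rw [zz_conj, Complex.log_conj]
  intro h
  have h1 := Complex.arg_eq_pi_iff.1 h
  have h2 := zz_re hp u
  linarith [h1.1]

theorem prod_zz {p : ℕ} (hp : 2 ≤ p) (b : ℝ) {m : ℕ} (h : Fin m → ℝ) :
    ∏ j, ∏ l, zz p (h j - h l) ^ (b : ℂ) = ((∏ j, ∏ l, ‖zz p (h j - h l)‖ ^ b : ℝ) : ℂ) := by
  have hne : ∀ u, zz p u ≠ 0 := fun u h0 => by
    have := zz_re hp u
    rw [h0] at this
    simp at this
  have h1 : ∀ u, zz p u ^ (b : ℂ) = Complex.exp (Complex.log (zz p u) * b) := fun u =>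
    Complex.cpow_def_of_ne_zero (hne u) _
  have h2 : ∀ u, ‖zz p u‖ ^ b = Real.exp (Real.log ‖zz p u‖ * b) := fun u =>
    Real.rpow_def_of_pos (norm_pos_iff.2 (hne u)) _
  simp only [h1, h2, ← Complex.exp_sum, ← Real.exp_sum, Complex.ofReal_exp]
  congr 1
  have h3 : ∑ j, ∑ l, Complex.log (zz p (h j - h l)) =
      ((∑ j, ∑ l, Real.log ‖zz p (h j - h l)‖ : ℝ) : ℂ) := by
    have h4 : (starRingEnd ℂ) (∑ j, ∑ l, Complex.log (zz p (h j - h l))) =
        ∑ j, ∑ l, Complex.log (zz p (h j - h l)) := by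
      rw [map_sum]
      simp only [map_sum, ← log_zz hp, neg_sub]
      rw [Finset.sum_comm]
    have h5 := Complex.conj_eq_iff_re.1 h4
    rw [← h5]
    congr 1
    simp only [Complex.re_sum, Complex.log_re]
  simp only [← Finset.sum_mul]
  rw [h3]
  push_cast
  rfl

theorem gV_eq (β : ℝ) {m : ℕ} (h : Fin m → ℝ) {p : ℕ} (hp : 2 ≤ p) :
    gV (fun _ => (β : ℂ)) (fun _ => (β : ℂ)) h 0 p = (lf β h p : ℂ) := by
  unfold gV lf
  rw [Complex.ofReal_mul, Complex.ofReal_tsum]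
  congr 1
  · have h1 := prod_zz hp (β * β) h
    unfold zz at h1
    rw [← h1]
    refine Finset.prod_congr rfl fun j _ => Finset.prod_congr rfl fun l _ => ?_
    congr 1
    · simp
    · push_cast; rfl
  · refine tsum_congr fun k => ?_
    have h2 : (cj (fun _ : Fin m => (β : ℂ))) = fun _ => (β : ℂ) := by
      funext j; simp [cj]
    rw [h2, lV_eq, Complex.mul_conj']
    push_cast
    congr 1
    simp [Real.rpow_neg_one]

theorem lf_mult (hG : S_GVB) (β : ℝ) {m : ℕ} (h : Fin m → ℝ) : Multipliable fun p : Nat.Primes => lf β h p := by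
  obtain ⟨C, hC, h1⟩ := hG m |β| (abs_nonneg β)
  have h2 : ∀ p : Nat.Primes, ‖lf β h p - 1‖ ≤ C / (p:ℝ) ^ 2 := by
    intro p
    have h3 := (h1 (fun _ => (β:ℂ)) (fun _ => (β:ℂ)) h (fun _ => by simp) (fun _ => by simp) p p.2 0 le_rfl
      zero_le_one).1
    rw [gV_eq β h p.2.two_le, ← Complex.ofReal_one, ← Complex.ofReal_sub, Complex.norm_real] at h3
    exact h3
  have h4 : Summable fun p : Nat.Primes => C / ((p:ℕ):ℝ) ^ 2 := by
    have h5 : Summable fun p : Nat.Primes => ((p:ℕ):ℝ) ^ (-2 : ℝ) := Nat.Primes.summable_rpow.2 (by norm_num)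
    refine (h5.mul_left C).congr fun p => ?_
    rw [Real.rpow_neg (by positivity), div_eq_mul_inv]
    norm_num
  have h6 : Summable fun p : Nat.Primes => ‖lf β h p - 1‖ := Summable.of_nonneg_of_le (fun _ => norm_nonneg _) h2 h4
  refine (multipliable_one_add_of_summable h6).congr fun p => ?_
  ring

theorem AA_eq (hG : S_GVB) (β : ℝ) {m : ℕ} (h : Fin m → ℝ) : AA β h = ∏' p : Nat.Primes, lf β h p := by
  have h1 : aV (fun _ => (β : ℂ)) (fun _ => (β : ℂ)) h = ((∏' p : Nat.Primes, lf β h p : ℝ) : ℂ) := by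
    have h2 := (lf_mult hG β h).map_tprod Complex.ofRealHom Complex.continuous_ofReal
    simp only [Complex.ofRealHom_eq_coe] at h2
    rw [h2]
    unfold aV
    exact tprod_congr fun p => gV_eq β h (Nat.Prime.two_le p.2)
  unfold AA
  rw [h1, Complex.ofReal_re]

end Pool.Agent.U899.MM
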