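import Mathlib

set_option autoImplicit false

/-! Integrals of products over pairs of coordinates. -/

namespace Pool.Agent.U899.MM

open MeasureTheory Filter Topology Finset
open scoped ENNReal

/-- product functions -/
theorem lint_pow {n : ℕ} (μ : Measure ℝ) [SigmaFinite μ] (f : ℝ → ℝ≥0∞) (hf : Measurable f) :
    ∫⁻ x : Fin n → ℝ, ∏ i, f (x i) ∂(Measure.pi fun _ => μ) = (∫⁻ x, f x ∂μ) ^ n := by
  induction n with
  | zero => simp
  | succ n ih =>
    have h1 := (measurePreserving_piFinSuccAbove (fun _ : Fin (n + 1) => μ) 0).symm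
    rw [← h1.lintegral_comp_emb (MeasurableEquiv.measurableEmbedding _)]
    simp_rw [MeasurableEquiv.piFinSuccAbove_symm_apply, Fin.insertNthEquiv,
      Fin.prod_univ_succ, Fin.insertNth_zero]
    simp only [Equiv.coe_fn_mk, Fin.cons_succ, cast_eq, Fin.cons_zero]
    have h2 := lintegral_prod_mul (μ := μ) (ν := Measure.pi fun _ : Fin n => μ) (f := f)
      (g := fun y : Fin n → ℝ => ∏ i, f (y i)) hf.aemeasurable
      (Finset.measurable_prod _ fun i _ => hf.comp (measurable_pi_apply i)).aemeasurable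
    rw [ih, ← pow_succ'] at h2
    exact h2

/-- stars -/
theorem lint_star {n : ℕ} (μ : Measure ℝ) [SigmaFinite μ] (j : Fin (n + 1)) (f : ℝ → ℝ≥0∞)
    (g : ℝ → ℝ → ℝ≥0∞) (hf : Measurable f) (hg : Measurable (Function.uncurry g)) :
    ∫⁻ h : Fin (n + 1) → ℝ, f (h j) * ∏ l : Fin n, g (h j) (h (j.succAbove l))
      ∂(Measure.pi fun _ => μ) = ∫⁻ x, f x * (∫⁻ y, g x y ∂μ) ^ n ∂μ := by
  have h1 := (measurePreserving_piFinSuccAbove (fun _ : Fin (n + 1) => μ) j).symm
  rw [← h1.lintegral_comp_emb (MeasurableEquiv.measurableEmbedding _)]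
  have e : ∀ a : ℝ × (Fin n → ℝ), (f ((MeasurableEquiv.piFinSuccAbove (fun _ => ℝ) j).symm a j) *
      ∏ l : Fin n, g ((MeasurableEquiv.piFinSuccAbove (fun _ => ℝ) j).symm a j)
        ((MeasurableEquiv.piFinSuccAbove (fun _ => ℝ) j).symm a (j.succAbove l))) =
      f a.1 * ∏ l : Fin n, g a.1 (a.2 l) := by
    intro a
    simp [MeasurableEquiv.piFinSuccAbove_symm_apply, Fin.insertNthEquiv]
  have hm : Measurable fun a : ℝ × (Fin n → ℝ) => f a.1 * ∏ l : Fin n, g a.1 (a.2 l) := by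
    refine (hf.comp measurable_fst).mul (Finset.measurable_prod _ fun l _ => ?_)
    exact hg.comp (measurable_fst.prodMk ((measurable_pi_apply l).comp measurable_snd))
  rw [lintegral_congr fun a => e a, lintegral_prod _ hm.aemeasurable]
  refine lintegral_congr fun x => ?_
  have hgx : Measurable (g x) := hg.comp (measurable_const.prodMk measurable_id)
  have h3 := lintegral_const_mul (μ := Measure.pi fun _ : Fin n => μ) (f x)
    (f := fun y : Fin n → ℝ => ∏ l, g x (y l))
    (Finset.measurable_prod _ fun l _ => hgx.comp (measurable_pi_apply l))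
  rw [lint_pow μ (g x) hgx] at h3
  exact h3

/-- the maximum argument instead of the inequality of the means -/
theorem prod_le_sum_pow {n : ℕ} (y : Fin (n + 1) → ℝ≥0∞) :
    ∏ j, y j ≤ ∑ j, y j ^ (n + 1) := by
  obtain ⟨j0, -, h0⟩ := Finset.exists_max_image Finset.univ y ⟨0, Finset.mem_univ _⟩
  calc ∏ j, y j ≤ ∏ _j : Fin (n + 1), y j0 := Finset.prod_le_prod' fun j hj => h0 j hj
    _ = y j0 ^ (n + 1) := by simp
    _ ≤ _ := Finset.single_le_sum (f := fun j => y j ^ (n + 1)) (fun _ _ => zero_le) (Finset.mem_univ j0)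

theorem prod_le_sum_pow_real {n : ℕ} (y : Fin (n + 1) → ℝ) (hy : ∀ j, 0 ≤ y j) :
    ∏ j, y j ≤ ∑ j, y j ^ (n + 1) := by
  obtain ⟨j0, -, h0⟩ := Finset.exists_max_image Finset.univ y ⟨0, Finset.mem_univ _⟩
  calc ∏ j, y j ≤ ∏ _j : Fin (n + 1), y j0 := Finset.prod_le_prod (fun j _ => hy j) fun j hj => h0 j hj
    _ = y j0 ^ (n + 1) := by simp
    _ ≤ _ := Finset.single_le_sum (f := fun j => y j ^ (n + 1)) (fun j _ => pow_nonneg (hy j) _)
        (Finset.mem_univ j0)

end Pool.Agent.U899.MM
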