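import Pool.Agent.U899.MM.Sub

set_option autoImplicit false

/-! The kernel at the scale of the distance to the line. -/

namespace Pool.Agent.U899.MM

open MeasureTheory Filter Topology Finset
open scoped ENNReal NNReal

/-- the configuration with first point zero -/
def hat {n : ℕ} (x : Fin n → ℝ) : Fin (n + 1) → ℝ := Fin.cons 0 x

theorem hat_zero {n : ℕ} (x : Fin n → ℝ) : hat x 0 = 0 := rfl
theorem hat_succ {n : ℕ} (x : Fin n → ℝ) (i : Fin n) : hat x i.succ = x i := by simp [hat]

theorem hat_cont {n : ℕ} (j : Fin (n + 1)) : Continuous fun x : Fin n → ℝ => hat x j := by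
  refine Fin.cases ?_ (fun i => ?_) j
  · simp only [hat_zero]; exact continuous_const
  · simp only [hat_succ]; exact continuous_apply i

/-- the kernel -/
noncomputable def KK (n : ℕ) (b : ℝ) (x : Fin n → ℝ) : ℝ :=
  ∏ j, ∏ l, (1 + ((hat x j - hat x l) / 2) ^ 2) ^ (-(b / 2))

/-- one factor -/
noncomputable def ps (a u : ℝ) : ℝ := (1 + (u / 2) ^ 2) ^ (-(a / 2))

theorem ps_pos (a u : ℝ) : 0 < ps a u := Real.rpow_pos_of_pos (by positivity) _

theorem ps_meas (a : ℝ) : Measurable (ps a) := by unfold ps; fun_prop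

theorem ps_cont (a : ℝ) : Continuous (ps a) := by
  unfold ps
  exact Continuous.rpow_const (by fun_prop) fun u => Or.inl (by positivity)

theorem ps_zero (a : ℝ) : ps a 0 = 1 := by simp [ps]

theorem ps_int {a : ℝ} (ha : 1 < a) : Integrable (ps a) := by
  have h1 : Integrable (fun x : ℝ => (1 + ‖x‖ ^ 2) ^ (-a / 2)) := by
    have := integrable_rpow_neg_one_add_norm_sq (E := ℝ) (μ := volume) (r := a) (by simpa using ha)
    exact this
  have h2 := h1.comp_div (R := (2:ℝ)) (by norm_num)
  refine h2.congr (ae_of_all _ fun u => ?_)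
  unfold ps
  simp only [Real.norm_eq_abs, sq_abs]
  congr 1
  ring

theorem KK_pos (n : ℕ) (b : ℝ) (x : Fin n → ℝ) : 0 < KK n b x :=
  Finset.prod_pos fun _ _ => Finset.prod_pos fun _ _ => Real.rpow_pos_of_pos (by positivity) _

theorem KK_cont (n : ℕ) (b : ℝ) : Continuous (KK n b) := by
  unfold KK
  refine continuous_finsetProd _ fun j _ => continuous_finsetProd _ fun l _ => ?_
  have h1 : Continuous fun x : Fin n → ℝ => ps b (hat x j - hat x l) :=
    (ps_cont b).comp ((hat_cont j).sub (hat_cont l))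
  exact h1

/-- the integral of one star -/
theorem star_K {n : ℕ} (j : Fin (n + 1)) (f : ℝ → ℝ≥0∞) (hf : Measurable f) (he : ∀ u, f (-u) = f u) :
    ∫⁻ x : Fin n → ℝ, ∏ l : Fin n, f (hat x j - hat x (j.succAbove l)) = (∫⁻ u, f u) ^ n := by
  rcases Fin.eq_zero_or_eq_succ j with h | ⟨j', h⟩
  · subst h
    have h1 := lint_pow (n := n) volume f hf
    rw [← h1]
    change ∫⁻ x : Fin n → ℝ, _ ∂volume = ∫⁻ x : Fin n → ℝ, _ ∂volume
    refine lintegral_congr fun x => Finset.prod_congr rfl fun l _ => ?_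
    rw [Fin.zero_succAbove, hat_zero, hat_succ, zero_sub, he]
  · subst h
    rcases n with _ | n
    · exact j'.elim0
    · have h1 := lint_star (n := n) volume j' f (fun x y => f (x - y)) hf (hf.comp (measurable_fst.sub measurable_snd))
      have h2 : ∀ x : ℝ, ∫⁻ y : ℝ, f (x - y) = ∫⁻ y : ℝ, f y := fun x => lintegral_sub_left_eq_self f x
      simp only [h2] at h1
      rw [lintegral_mul_const _ hf, ← pow_succ'] at h1
      rw [← h1]
      change ∫⁻ x : Fin (n + 1) → ℝ, _ ∂volume = ∫⁻ x : Fin (n + 1) → ℝ, _ ∂volume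
      refine lintegral_congr fun x => ?_
      rw [Fin.prod_univ_succ]
      congr 1
      · rw [Fin.succ_succAbove_zero, hat_zero, hat_succ, sub_zero]
      · refine Finset.prod_congr rfl fun l _ => ?_
        rw [Fin.succ_succAbove_succ, hat_succ, hat_succ]

/-- the kernel is integrable -/
theorem KK_int {n : ℕ} {b : ℝ} (h : 1 < (n + 1 : ℝ) * b) : Integrable (KK n b) := by
  set a : ℝ := (n + 1 : ℝ) * b with ha
  have h1 : ∀ x : Fin n → ℝ, KK n b x ≤ ∑ j, ∏ l : Fin n, ps a (hat x j - hat x (j.succAbove l)) := by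
    intro x
    have h2 : KK n b x = ∏ j, ∏ l : Fin n, ps b (hat x j - hat x (j.succAbove l)) := by
      unfold KK
      refine Finset.prod_congr rfl fun j _ => ?_
      rw [Fin.prod_univ_succAbove _ j]
      simp [ps]
    rw [h2]
    refine (prod_le_sum_pow_real _ fun j => Finset.prod_nonneg fun l _ => (ps_pos _ _).le).trans (le_of_eq ?_)
    refine Finset.sum_congr rfl fun j _ => ?_
    rw [← Finset.prod_pow]
    refine Finset.prod_congr rfl fun l _ => ?_
    unfold ps
    rw [← Real.rpow_natCast, ← Real.rpow_mul (by positivity)]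
    congr 1
    rw [ha]
    push_cast
    ring
  refine Integrable.mono' (g := fun x => ∑ j, ∏ l : Fin n, ps a (hat x j - hat x (j.succAbove l))) ?_
    (KK_cont n b).aestronglyMeasurable (ae_of_all _ fun x => ?_)
  · refine integrable_finsetSum _ fun j _ => ?_
    have hc : Continuous fun x : Fin n → ℝ => ∏ l : Fin n, ps a (hat x j - hat x (j.succAbove l)) :=
      continuous_finsetProd _ fun l _ => (ps_cont a).comp ((hat_cont j).sub (hat_cont _))
    refine ⟨hc.aestronglyMeasurable, ?_⟩
    rw [hasFiniteIntegral_iff_ofReal (ae_of_all _ fun x => Finset.prod_nonneg fun l _ => (ps_pos _ _).le)]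
    have h3 : ∀ x : Fin n → ℝ, ENNReal.ofReal (∏ l : Fin n, ps a (hat x j - hat x (j.succAbove l))) =
        ∏ l : Fin n, ENNReal.ofReal (ps a (hat x j - hat x (j.succAbove l))) := fun x =>
      ENNReal.ofReal_prod_of_nonneg fun l _ => (ps_pos _ _).le
    simp only [h3]
    rw [star_K j (fun u => ENNReal.ofReal (ps a u)) (ENNReal.measurable_ofReal.comp (ps_meas a))
      (fun u => by simp [ps, neg_div])]
    exact ENNReal.pow_lt_top (ps_int h).lintegral_lt_top
  · rw [Real.norm_of_nonneg (KK_pos n b x).le]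
    exact h1 x

theorem KK_int_pos {n : ℕ} {b : ℝ} (h : 1 < (n + 1 : ℝ) * b) : 0 < ∫ x, KK n b x := by
  rw [integral_pos_iff_support_of_nonneg (fun x => (KK_pos n b x).le) (KK_int h)]
  have : Function.support (KK n b) = Set.univ := by
    ext x; simpa using (KK_pos n b x).ne'
  rw [this]
  exact isOpen_univ.measure_pos _ Set.univ_nonempty

end Pool.Agent.U899.MM
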