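import Pool.Agent.U899.MM.Sub

set_option autoImplicit false

/-! The main term: measures with bounded Riesz potential, the limit. -/

namespace Pool.Agent.U899.MM

open MeasureTheory Filter Topology Finset
open scoped ENNReal NNReal

/-- the main term -/
noncomputable def FM {n : ℕ} (A : (Fin (n + 1) → ℝ) → ℝ) (b δ : ℝ) (h : Fin (n + 1) → ℝ) : ℝ :=
  A h * ∏ j, ∏ l, ze δ (h j - h l) ^ b

/-- the limit away from the diagonals -/
noncomputable def GM {n : ℕ} (A : (Fin (n + 1) → ℝ) → ℝ) (b : ℝ) (h : Fin (n + 1) → ℝ) : ℝ :=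
  A h * ∏ j, ∏ l ∈ ({j}ᶜ : Finset (Fin (n + 1))), ze 0 (h j - h l) ^ b

section

variable {n : ℕ} {μ : Measure ℝ} [IsFiniteMeasure μ]

theorem FM_eq (A : (Fin (n + 1) → ℝ) → ℝ) (b δ : ℝ) (hδ : 0 < δ) (h : Fin (n + 1) → ℝ) :
    (2 * δ) ^ ((n + 1 : ℝ) * b) * FM A b δ h = A h * (((2 * δ * ze δ 0) ^ b) ^ (n + 1) *
      ∏ j, ∏ l ∈ ({j}ᶜ : Finset (Fin (n + 1))), ze δ (h j - h l) ^ b) := by
  unfold FM
  have h1 : ∏ j, ∏ l, ze δ (h j - h l) ^ b = (ze δ 0 ^ b) ^ (n + 1) *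
      ∏ j, ∏ l ∈ ({j}ᶜ : Finset (Fin (n + 1))), ze δ (h j - h l) ^ b := by
    have h2 : ∀ j, ∏ l, ze δ (h j - h l) ^ b = ze δ 0 ^ b *
        ∏ l ∈ ({j}ᶜ : Finset (Fin (n + 1))), ze δ (h j - h l) ^ b := by
      intro j
      rw [prod_split j, sub_self]
    rw [Finset.prod_congr rfl fun j _ => h2 j, Finset.prod_mul_distrib, Finset.prod_const,
      Finset.card_univ, Fintype.card_fin]
  have h3 : (2 * δ) ^ ((n + 1 : ℝ) * b) = ((2 * δ) ^ b) ^ (n + 1) := by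
    rw [← Real.rpow_natCast, ← Real.rpow_mul (by positivity)]
    congr 1
    push_cast
    ring
  rw [h1, h3, Real.mul_rpow (by positivity) (ze_nonneg _ _), mul_pow]
  ring

theorem ae_range {R : ℝ} (hμ : μ (Set.Icc (-R) R)ᶜ = 0) :
    ∀ᵐ h : Fin (n + 1) → ℝ ∂(Measure.pi fun _ => μ), ∀ j, h j ∈ Set.Icc (-R) R := by
  rw [ae_all_iff]
  intro j
  have h1 : Tendsto (Function.eval j) (ae (Measure.pi fun _ : Fin (n + 1) => μ)) (ae μ) :=
    Measure.tendsto_eval_ae_ae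
  exact h1.eventually (mem_ae_iff.2 hμ : Set.Icc (-R) R ∈ ae μ)

theorem ze_joint (δ : ℝ) (hδ : 0 < δ) (j l : Fin (n + 1)) :
    Continuous fun h : Fin (n + 1) → ℝ => ze δ (h j - h l) :=
  (ze_cont hδ).comp (by fun_prop)

theorem sub_lim {A : (Fin (n + 1) → ℝ) → ℝ} {CA b R : ℝ} (hA : Measurable A) (hAC : ∀ h, |A h| ≤ CA)
    (hb : 0 < b) (hR0 : 0 ≤ R) (hμ : μ (Set.Icc (-R) R)ᶜ = 0) (hR : Riesz ((n + 1 : ℝ) * b) μ) :
    Integrable (GM A b) (Measure.pi fun _ : Fin (n + 1) => μ) ∧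
    Tendsto (fun δ => (2 * δ) ^ ((n + 1 : ℝ) * b) * ∫ h, FM A b δ h ∂(Measure.pi fun _ : Fin (n + 1) => μ))
      (𝓝[>] 0) (𝓝 (∫ h, GM A b h ∂(Measure.pi fun _ : Fin (n + 1) => μ))) := by
  have hab : 0 < (n + 1 : ℝ) * b := by positivity
  obtain ⟨C, hC, hC2⟩ := ze_le (2 * R)
  have hCA : 0 ≤ CA := (abs_nonneg _).trans (hAC 0)
  set D : ℝ := CA * ((C ^ b) ^ (n + 1) * ((C ^ b) ^ n) ^ (n + 1)) with hD
  have hsmall : ∀ᶠ δ : ℝ in 𝓝[>] 0, 0 < δ ∧ δ ≤ 1 / 16 := by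
    filter_upwards [self_mem_nhdsWithin, nhdsWithin_le_nhds (Iic_mem_nhds (by norm_num : (0:ℝ) < 1 / 16))]
      with δ h1 h2 using ⟨h1, h2⟩
  -- the integrands
  set Φ : ℝ → (Fin (n + 1) → ℝ) → ℝ := fun δ h => A h * (((2 * δ * ze δ 0) ^ b) ^ (n + 1) *
      ∏ j, ∏ l ∈ ({j}ᶜ : Finset (Fin (n + 1))), ze δ (h j - h l) ^ b) with hΦ
  have hmeas : ∀ᶠ δ : ℝ in 𝓝[>] 0, AEStronglyMeasurable (Φ δ) (Measure.pi fun _ : Fin (n + 1) => μ) := by
    filter_upwards [hsmall] with δ hδ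
    refine Measurable.aestronglyMeasurable ?_
    refine hA.mul (measurable_const.mul (Finset.measurable_prod _ fun j _ => Finset.measurable_prod _ fun l _ => ?_))
    exact (ze_joint δ hδ.1 j l).measurable.pow_const b
  have hbd : ∀ δ : ℝ, 0 < δ → δ ≤ 1 / 16 → ∀ h : Fin (n + 1) → ℝ, (∀ j, h j ∈ Set.Icc (-R) R) →
      (∀ j : Fin (n + 1), ∀ l ∈ ({j}ᶜ : Finset (Fin (n + 1))), h j - h l ≠ 0) →
      ‖Φ δ h‖ ≤ D * Dom ((n + 1 : ℝ) * b) h := by
    intro δ h1 h2 h hh hd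
    have hw : ∀ j, ∀ l ∈ ({j}ᶜ : Finset (Fin (n + 1))), 0 ≤ ze δ (h j - h l) ∧
        ze δ (h j - h l) ≤ C * |h j - h l| ^ (-(1 : ℝ)) := by
      intro j l hl
      refine ⟨ze_nonneg _ _, ?_⟩
      have h3 : |h j - h l| ≤ 2 * R := by
        rw [abs_le]
        constructor <;> linarith [(hh j).1, (hh j).2, (hh l).1, (hh l).2]
      have h4 := (hC2 δ (h j - h l) h1 h2 h3).1
      have h5 : 0 < |h j - h l| := abs_pos.2 (hd j l hl)
      rw [Real.rpow_neg_one, ← div_eq_mul_inv, le_div_iff₀ h5]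
      linarith
    have h6 := prod_le_dom b C hb.le hC.le h (fun j l => ze δ (h j - h l)) hw
    have h7 : 2 * δ * ze δ 0 ≤ C := (hC2 δ 0 h1 h2 (by simpa using hR0)).2.1
    have h8 : 0 ≤ 2 * δ * ze δ 0 := by have := ze_nonneg δ 0; positivity
    have hP : 0 ≤ ∏ j, ∏ l ∈ ({j}ᶜ : Finset (Fin (n + 1))), ze δ (h j - h l) ^ b :=
      Finset.prod_nonneg fun j _ => Finset.prod_nonneg fun l _ => Real.rpow_nonneg (ze_nonneg _ _) _
    have h9 : ((2 * δ * ze δ 0) ^ b) ^ (n + 1) ≤ (C ^ b) ^ (n + 1) :=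
      pow_le_pow_left₀ (Real.rpow_nonneg h8 _) (Real.rpow_le_rpow h8 h7 hb.le) _
    rw [hΦ, Real.norm_eq_abs, abs_mul, abs_of_nonneg (mul_nonneg (pow_nonneg (Real.rpow_nonneg h8 _) _) hP), hD]
    calc |A h| * (((2 * δ * ze δ 0) ^ b) ^ (n + 1) *
          ∏ j, ∏ l ∈ ({j}ᶜ : Finset (Fin (n + 1))), ze δ (h j - h l) ^ b) ≤
        CA * ((C ^ b) ^ (n + 1) * (((C ^ b) ^ n) ^ (n + 1) * Dom ((n + 1 : ℝ) * b) h)) := by
          refine mul_le_mul (hAC h) ?_ (mul_nonneg (pow_nonneg (Real.rpow_nonneg h8 _) _) hP) hCA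
          exact mul_le_mul h9 h6 hP (by positivity)
      _ = _ := by ring
  have hae := (ae_range (n := n) hμ).and (ae_distinct (n := n) hab hR)
  have hDint : Integrable (fun h : Fin (n + 1) → ℝ => D * Dom ((n + 1 : ℝ) * b) h)
      (Measure.pi fun _ : Fin (n + 1) => μ) := (Dom_int hab hR).const_mul D
  have hbound : ∀ᶠ δ : ℝ in 𝓝[>] 0, ∀ᵐ h ∂(Measure.pi fun _ : Fin (n + 1) => μ),
      ‖Φ δ h‖ ≤ D * Dom ((n + 1 : ℝ) * b) h := by
    filter_upwards [hsmall] with δ hδ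
    filter_upwards [hae] with h hh using hbd δ hδ.1 hδ.2 h hh.1 hh.2
  have hlim : ∀ᵐ h ∂(Measure.pi fun _ : Fin (n + 1) => μ),
      Tendsto (fun δ => Φ δ h) (𝓝[>] 0) (𝓝 (GM A b h)) := by
    filter_upwards [hae] with h hh
    have h1 : Tendsto (fun δ : ℝ => ((2 * δ * ze δ 0) ^ b) ^ (n + 1)) (𝓝[>] 0) (𝓝 1) := by
      have := ((ze_diag.rpow_const (Or.inl one_ne_zero) : Tendsto (fun δ : ℝ => (2 * δ * ze δ 0) ^ b)
        (𝓝[>] 0) (𝓝 (1 ^ b)))).pow (n + 1)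
      simpa using this
    have h2 : Tendsto (fun δ : ℝ => ∏ j, ∏ l ∈ ({j}ᶜ : Finset (Fin (n + 1))), ze δ (h j - h l) ^ b) (𝓝[>] 0)
        (𝓝 (∏ j, ∏ l ∈ ({j}ᶜ : Finset (Fin (n + 1))), ze 0 (h j - h l) ^ b)) := by
      refine tendsto_finsetProd _ fun j _ => tendsto_finsetProd _ fun l hl => ?_
      refine Tendsto.rpow_const ((ze_lim (hh.2 j l hl)).mono_left nhdsWithin_le_nhds) (Or.inr hb.le)
    have h3 := (h1.mul h2).const_mul (A h)
    rw [one_mul] at h3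
    exact h3
  have hGm : AEStronglyMeasurable (GM A b) (Measure.pi fun _ : Fin (n + 1) => μ) := by
    obtain ⟨u, hu1⟩ := exists_seq_tendsto (𝓝[>] (0:ℝ))
    obtain ⟨N, hN⟩ := eventually_atTop.1 (hu1.eventually hmeas)
    refine aestronglyMeasurable_of_tendsto_ae atTop (f := fun k => Φ (u (k + N)))
      (fun k => hN (k + N) (Nat.le_add_left N k)) ?_
    filter_upwards [hlim] with h hh
    exact (hh.comp hu1).comp (tendsto_add_atTop_nat N)
  have hGint : Integrable (GM A b) (Measure.pi fun _ : Fin (n + 1) => μ) := by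
    refine hDint.mono' hGm ?_
    filter_upwards [hlim, hae] with h h1 h2
    refine le_of_tendsto h1.norm ?_
    filter_upwards [hsmall] with δ hδ using hbd δ hδ.1 hδ.2 h h2.1 h2.2
  refine ⟨hGint, ?_⟩
  have key := tendsto_integral_filter_of_dominated_convergence _ hmeas hbound hDint hlim
  refine key.congr' ?_
  filter_upwards [hsmall] with δ hδ
  rw [← integral_const_mul]
  refine integral_congr_ae (ae_of_all _ fun h => ?_)
  exact (FM_eq A b δ hδ.1 h).symm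

/-- the constant is positive -/
theorem sub_pos {A : (Fin (n + 1) → ℝ) → ℝ} {b : ℝ} (hA0 : ∀ h, 0 < A h) (hb : 0 < b)
    (hμ0 : μ ≠ 0) (hR : Riesz ((n + 1 : ℝ) * b) μ)
    (hint : Integrable (GM A b) (Measure.pi fun _ : Fin (n + 1) => μ)) :
    0 < ∫ h, GM A b h ∂(Measure.pi fun _ : Fin (n + 1) => μ) := by
  have hab : 0 < (n + 1 : ℝ) * b := by positivity
  have hpos : ∀ᵐ h ∂(Measure.pi fun _ : Fin (n + 1) => μ), 0 < GM A b h := by
    filter_upwards [ae_distinct (n := n) hab hR] with h hh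
    refine mul_pos (hA0 h) (Finset.prod_pos fun j _ => Finset.prod_pos fun l hl => ?_)
    exact Real.rpow_pos_of_pos (ze_pos le_rfl (Or.inr (hh j l hl))) _
  rw [integral_pos_iff_support_of_nonneg_ae (hpos.mono fun h hh => hh.le) hint]
  have h1 : Function.support (GM A b) =ᵐ[Measure.pi fun _ : Fin (n + 1) => μ] Set.univ := by
    filter_upwards [hpos] with h hh
    exact propext ⟨fun _ => trivial, fun _ => hh.ne'⟩
  rw [measure_congr h1, Measure.pi_univ]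
  refine pos_iff_ne_zero.2 (Finset.prod_ne_zero_iff.2 fun i _ => ?_)
  simpa using hμ0

end

end Pool.Agent.U899.MM
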