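import Pool.Agent.U899.MM.Ker
import Pool.Agent.U899.MM.SubLim

set_option autoImplicit false

/-! The main term: intervals, the clustered regime. -/

namespace Pool.Agent.U899.MM

open MeasureTheory Filter Topology Finset
open scoped ENNReal NNReal

/-- the cube -/
def cube (n : ℕ) (B : ℝ) : Set (Fin n → ℝ) := Set.univ.pi fun _ => Set.Icc 0 B

theorem cube_meas (n : ℕ) (B : ℝ) : MeasurableSet (cube n B) :=
  MeasurableSet.univ_pi fun _ => measurableSet_Icc

theorem mem_cube {n : ℕ} {B : ℝ} {h : Fin n → ℝ} : h ∈ cube n B ↔ ∀ j, h j ∈ Set.Icc 0 B := by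
  simp only [cube, Set.mem_univ_pi]

/-- the points at distance of order `δ` -/
noncomputable def pt {n : ℕ} (δ : ℝ) (p : ℝ × (Fin n → ℝ)) : Fin (n + 1) → ℝ := fun j => p.1 + δ * hat p.2 j

theorem pt_cons {n : ℕ} (δ c : ℝ) (x : Fin n → ℝ) :
    pt δ (c, x) = (Fin.cons c ((fun _ => c) + δ • x) : Fin (n + 1) → ℝ) := by
  funext j
  refine Fin.cases ?_ (fun i => ?_) j
  · simp [pt, hat]
  · simp [pt, hat]

theorem pt_cont {n : ℕ} (δ : ℝ) : Continuous (pt (n := n) δ) := by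
  refine continuous_pi fun j => ?_
  unfold pt
  exact continuous_fst.add (continuous_const.mul ((hat_cont j).comp continuous_snd))

/-- the change of variables -/
theorem change {n : ℕ} {δ : ℝ} (hδ : 0 < δ) (Φ : (Fin (n + 1) → ℝ) → ℝ) (h1 : Integrable Φ)
    (h2 : Integrable fun p : ℝ × (Fin n → ℝ) => Φ (pt δ p)) :
    ∫ h, Φ h = δ ^ n * ∫ p : ℝ × (Fin n → ℝ), Φ (pt δ p) := by
  have e1 := (volume_preserving_piFinSuccAbove (fun _ : Fin (n + 1) => ℝ) 0).symm
  have e2 := e1.integral_comp' (g := Φ)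
  have e3 : Integrable fun p : ℝ × (Fin n → ℝ) => Φ ((MeasurableEquiv.piFinSuccAbove (fun _ => ℝ) 0).symm p) :=
    (e1.integrable_comp_emb (MeasurableEquiv.measurableEmbedding _)).2 h1
  have e4 : ∀ p : ℝ × (Fin n → ℝ), (MeasurableEquiv.piFinSuccAbove (fun _ => ℝ) 0).symm p =
      (Fin.cons p.1 p.2 : Fin (n + 1) → ℝ) := by
    intro p
    rw [MeasurableEquiv.piFinSuccAbove_symm_apply]
    simp [Fin.insertNthEquiv]
  rw [← e2]
  simp only [e4] at e3 ⊢
  have e7 : ∫ p : ℝ × (Fin n → ℝ), Φ (pt δ p) = ∫ c : ℝ, ∫ x : Fin n → ℝ, Φ (pt δ (c, x)) := integral_prod _ h2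
  have e8 : ∫ p : ℝ × (Fin n → ℝ), Φ (Fin.cons p.1 p.2) = ∫ c : ℝ, ∫ x : Fin n → ℝ, Φ (Fin.cons c x) :=
    integral_prod _ e3
  refine e8.trans ?_
  rw [e7, ← integral_const_mul]
  refine integral_congr_ae (ae_of_all _ fun c => ?_)
  simp only [pt_cons]
  have e5 : ∫ x : Fin n → ℝ, Φ (Fin.cons c ((fun _ => c) + δ • x)) =
      |(δ ^ Module.finrank ℝ (Fin n → ℝ))⁻¹| • ∫ y : Fin n → ℝ, Φ (Fin.cons c ((fun _ => c) + y)) :=
    Measure.integral_comp_smul volume (fun y : Fin n → ℝ => Φ (Fin.cons c ((fun _ => c) + y))) δ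
  have e6 : ∫ y : Fin n → ℝ, Φ (Fin.cons c ((fun _ => c) + y)) = ∫ y : Fin n → ℝ, Φ (Fin.cons c y) :=
    integral_add_left_eq_self (fun y : Fin n → ℝ => Φ (Fin.cons c y)) (fun _ => c)
  rw [e5, e6, Module.finrank_fin_fun, abs_of_pos (by positivity), smul_eq_mul, ← mul_assoc,
    mul_inv_cancel₀ (by positivity), one_mul]

section

variable {n : ℕ}

theorem FM_cont {A : (Fin (n + 1) → ℝ) → ℝ} (hA : Continuous A) {b δ : ℝ} (hb : 0 < b) (hδ : 0 < δ) :
    Continuous (FM A b δ) := by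
  unfold FM
  refine hA.mul (continuous_finsetProd _ fun j _ => continuous_finsetProd _ fun l _ => ?_)
  exact (ze_joint δ hδ j l).rpow_const fun h => Or.inr hb.le

theorem cube_compact (n : ℕ) (B : ℝ) : IsCompact (cube n B) := isCompact_univ_pi fun _ => isCompact_Icc

theorem pi_restrict (n : ℕ) (B : ℝ) : (Measure.pi fun _ : Fin n => (volume : Measure ℝ).restrict (Set.Icc 0 B)) =
    (volume : Measure (Fin n → ℝ)).restrict (cube n B) := by
  unfold cube
  rw [volume_pi, Measure.restrict_pi_pi]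

/-- the integrand in the new variables -/
theorem FM_pt (A : (Fin (n + 1) → ℝ) → ℝ) (b δ : ℝ) (hδ : 0 < δ) (p : ℝ × (Fin n → ℝ)) :
    (2 * δ) ^ (((n + 1 : ℝ) ^ 2) * b) * FM A b δ (pt δ p) =
      A (pt δ p) * ∏ j, ∏ l, (2 * δ * ze δ (δ * (hat p.2 j - hat p.2 l))) ^ b := by
  unfold FM
  have h1 : ∀ j l : Fin (n + 1), pt δ p j - pt δ p l = δ * (hat p.2 j - hat p.2 l) := by
    intro j l; unfold pt; ring
  have h2 : (2 * δ) ^ (((n + 1 : ℝ) ^ 2) * b) = ∏ _j : Fin (n + 1), ∏ _l : Fin (n + 1), (2 * δ) ^ b := by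
    rw [Finset.prod_const, Finset.prod_const, Finset.card_univ, Fintype.card_fin, ← pow_mul]
    have h0 : (2 * δ) ^ (b * (((n + 1) * (n + 1) : ℕ) : ℝ)) = ((2 * δ) ^ b) ^ ((n + 1) * (n + 1)) := by
      rw [Real.rpow_mul (by positivity), Real.rpow_natCast]
    rw [← h0]
    congr 1
    push_cast
    ring
  have h3 : ∏ j, ∏ l, (2 * δ * ze δ (δ * (hat p.2 j - hat p.2 l))) ^ b =
      (∏ _j : Fin (n + 1), ∏ _l : Fin (n + 1), (2 * δ) ^ b) *
        ∏ j, ∏ l, ze δ (δ * (hat p.2 j - hat p.2 l)) ^ b := by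
    rw [← Finset.prod_mul_distrib]
    refine Finset.prod_congr rfl fun j _ => ?_
    rw [← Finset.prod_mul_distrib]
    refine Finset.prod_congr rfl fun l _ => ?_
    rw [Real.mul_rpow (by positivity) (ze_nonneg _ _)]
  simp only [h1]
  rw [h3, h2]
  ring

theorem sup_lim {A : (Fin (n + 1) → ℝ) → ℝ} {CA A0 b B : ℝ} (hA : Continuous A) (hAC : ∀ h, |A h| ≤ CA)
    (hA0 : ∀ c : ℝ, A (fun _ => c) = A0) (hb : 0 < b) (hB : 0 < B) (h1 : 1 < (n + 1 : ℝ) * b) :
    Tendsto (fun δ => (2 * δ) ^ (((n + 1 : ℝ) ^ 2) * b) * (δ ^ n)⁻¹ *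
      ∫ h, FM A b δ h ∂(Measure.pi fun _ : Fin (n + 1) => (volume : Measure ℝ).restrict (Set.Icc 0 B)))
      (𝓝[>] 0) (𝓝 (B * A0 * ∫ x, KK n b x)) := by
  obtain ⟨C, hC, hC2⟩ := ze_le B
  have hCA : 0 ≤ CA := (abs_nonneg _).trans (hAC 0)
  have hsmall : ∀ᶠ δ : ℝ in 𝓝[>] 0, 0 < δ ∧ δ ≤ 1 / 16 := by
    filter_upwards [self_mem_nhdsWithin, nhdsWithin_le_nhds (Iic_mem_nhds (by norm_num : (0:ℝ) < 1 / 16))]
      with δ h1 h2 using ⟨h1, h2⟩
  set D : ℝ := CA * ((C ^ b) ^ (n + 1)) ^ (n + 1) with hD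
  set Φ : ℝ → (Fin (n + 1) → ℝ) → ℝ := fun δ => (cube (n + 1) B).indicator (FM A b δ) with hΦ
  set Ψ : ℝ → ℝ × (Fin n → ℝ) → ℝ := fun δ p => (2 * δ) ^ (((n + 1 : ℝ) ^ 2) * b) * Φ δ (pt δ p) with hΨ
  set bd : ℝ × (Fin n → ℝ) → ℝ := fun p => D * ((Set.Icc (0:ℝ) B).indicator (fun _ => (1:ℝ)) p.1 * KK n b p.2) with hbd
  set L : ℝ × (Fin n → ℝ) → ℝ := fun p => A0 * ((Set.Icc (0:ℝ) B).indicator (fun _ => (1:ℝ)) p.1 * KK n b p.2) with hL
  have hI : Integrable (fun p : ℝ × (Fin n → ℝ) => (Set.Icc (0:ℝ) B).indicator (fun _ => (1:ℝ)) p.1 * KK n b p.2) := by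
    refine Integrable.mul_prod ?_ (KK_int h1)
    exact (integrable_indicator_iff measurableSet_Icc).2 (integrableOn_const (by simp))
  have hbdint : Integrable bd := hI.const_mul D
  -- measurability
  have hΦm : ∀ δ, 0 < δ → Measurable (Φ δ) := fun δ hδ => (FM_cont hA hb hδ).measurable.indicator (cube_meas _ _)
  have hΨm : ∀ δ, 0 < δ → Measurable (Ψ δ) := fun δ hδ =>
    measurable_const.mul ((hΦm δ hδ).comp (pt_cont δ).measurable)
  -- the bound
  have hbound : ∀ δ, 0 < δ → δ ≤ 1 / 16 → ∀ p, ‖Ψ δ p‖ ≤ bd p := by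
    intro δ h2 h3 p
    by_cases hp : pt δ p ∈ cube (n + 1) B
    · have hp' := mem_cube.1 hp
      have hp0 : p.1 ∈ Set.Icc 0 B := by
        have := hp' 0
        simpa [pt, hat] using this
      have e1 : Ψ δ p = A (pt δ p) * ∏ j, ∏ l, (2 * δ * ze δ (δ * (hat p.2 j - hat p.2 l))) ^ b := by
        rw [hΨ, ← FM_pt A b δ h2 p]
        simp only [hΦ, Set.indicator_of_mem hp]
      have e2 : ∀ j l : Fin (n + 1), 0 ≤ 2 * δ * ze δ (δ * (hat p.2 j - hat p.2 l)) := fun j l => by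
        have := ze_nonneg δ (δ * (hat p.2 j - hat p.2 l)); positivity
      have e3 : 0 ≤ ∏ j, ∏ l, (2 * δ * ze δ (δ * (hat p.2 j - hat p.2 l))) ^ b :=
        Finset.prod_nonneg fun j _ => Finset.prod_nonneg fun l _ => Real.rpow_nonneg (e2 j l) _
      have e4 : ∏ j, ∏ l, (2 * δ * ze δ (δ * (hat p.2 j - hat p.2 l))) ^ b ≤
          ((C ^ b) ^ (n + 1)) ^ (n + 1) * KK n b p.2 := by
        have e5 : ((C ^ b) ^ (n + 1)) ^ (n + 1) * KK n b p.2 = ∏ j, ∏ l, (C ^ b *
            (1 + ((hat p.2 j - hat p.2 l) / 2) ^ 2) ^ (-(b / 2))) := by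
          unfold KK
          simp only [Finset.prod_mul_distrib, Finset.prod_const, Finset.card_univ, Fintype.card_fin]
        rw [e5]
        refine Finset.prod_le_prod (fun j _ => Finset.prod_nonneg fun l _ => Real.rpow_nonneg (e2 j l) _)
          fun j _ => Finset.prod_le_prod (fun l _ => Real.rpow_nonneg (e2 j l) _) fun l _ => ?_
        have e6 : |δ * (hat p.2 j - hat p.2 l)| ≤ B := by
          have a1 : pt δ p j - pt δ p l = δ * (hat p.2 j - hat p.2 l) := by unfold pt; ring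
          rw [← a1, abs_le]
          constructor <;> linarith [(hp' j).1, (hp' j).2, (hp' l).1, (hp' l).2]
        have e7 := (hC2 δ _ h2 h3 e6).2.2 _ rfl
        refine (Real.rpow_le_rpow (e2 j l) e7 hb.le).trans (le_of_eq ?_)
        rw [Real.mul_rpow hC.le (by positivity), ← Real.rpow_mul (by positivity)]
        congr 2
        ring
      rw [e1, Real.norm_eq_abs, abs_mul, abs_of_nonneg e3, hbd, hD]
      simp only [Set.indicator_of_mem hp0, one_mul]
      calc |A (pt δ p)| * ∏ j, ∏ l, (2 * δ * ze δ (δ * (hat p.2 j - hat p.2 l))) ^ b ≤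
          CA * (((C ^ b) ^ (n + 1)) ^ (n + 1) * KK n b p.2) := mul_le_mul (hAC _) e4 e3 hCA
        _ = _ := by ring
    · have e1 : Ψ δ p = 0 := by
        simp only [hΨ, hΦ, Set.indicator_of_notMem hp, mul_zero]
      rw [e1, norm_zero, hbd]
      have e2 : 0 ≤ (Set.Icc (0:ℝ) B).indicator (fun _ => (1:ℝ)) p.1 :=
        Set.indicator_nonneg (fun _ _ => zero_le_one) _
      have e3 := (KK_pos n b p.2).le
      positivity
  -- the pointwise limit
  have hlim : ∀ᵐ p : ℝ × (Fin n → ℝ), Tendsto (fun δ => Ψ δ p) (𝓝[>] 0) (𝓝 (L p)) := by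
    have hne : ∀ᵐ p : ℝ × (Fin n → ℝ), p.1 ≠ 0 ∧ p.1 ≠ B := by
      have q1 : ∀ᵐ c : ℝ, c ≠ 0 ∧ c ≠ B := by
        have := (Set.finite_singleton (0:ℝ)).measure_zero (volume : Measure ℝ)
        filter_upwards [compl_mem_ae_iff.2 this, compl_mem_ae_iff.2 ((Set.finite_singleton B).measure_zero volume)]
          with c h1 h2 using ⟨h1, h2⟩
      exact (Measure.quasiMeasurePreserving_fst (μ := (volume : Measure ℝ))
        (ν := (volume : Measure (Fin n → ℝ)))).ae q1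
    filter_upwards [hne] with p hp
    by_cases hp0 : p.1 ∈ Set.Icc 0 B
    · have hint : p.1 ∈ Set.Ioo 0 B := ⟨lt_of_le_of_ne hp0.1 (Ne.symm hp.1), lt_of_le_of_ne hp0.2 hp.2⟩
      have hptc : ∀ j, Tendsto (fun δ => pt δ p j) (𝓝[>] 0) (𝓝 p.1) := by
        intro j
        have : Continuous fun δ : ℝ => p.1 + δ * hat p.2 j := by fun_prop
        have h := this.tendsto 0
        simp only [zero_mul, add_zero] at h
        exact h.mono_left nhdsWithin_le_nhds
      have hin : ∀ᶠ δ in 𝓝[>] 0, pt δ p ∈ cube (n + 1) B := by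
        have : ∀ᶠ δ in 𝓝[>] 0, ∀ j, pt δ p j ∈ Set.Ioo 0 B :=
          eventually_all.2 fun j => (hptc j).eventually (isOpen_Ioo.mem_nhds hint)
        filter_upwards [this] with δ hδ
        exact mem_cube.2 fun j => ⟨(hδ j).1.le, (hδ j).2.le⟩
      have t1 : Tendsto (fun δ => A (pt δ p)) (𝓝[>] 0) (𝓝 A0) := by
        have := (hA.tendsto (fun _ => p.1)).comp (tendsto_pi_nhds.2 hptc)
        rw [hA0] at this
        exact this
      have t2 : Tendsto (fun δ => ∏ j, ∏ l, (2 * δ * ze δ (δ * (hat p.2 j - hat p.2 l))) ^ b) (𝓝[>] 0)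
          (𝓝 (KK n b p.2)) := by
        unfold KK
        refine tendsto_finsetProd _ fun j _ => tendsto_finsetProd _ fun l _ => ?_
        have t3 := (ze_scaled (hat p.2 j - hat p.2 l)).rpow_const (p := b) (Or.inr hb.le)
        rw [← Real.rpow_mul (by positivity)] at t3
        convert t3 using 3
        ring
      have t4 := t1.mul t2
      have t5 : L p = A0 * KK n b p.2 := by
        simp only [hL, Set.indicator_of_mem hp0, one_mul]
      rw [t5]
      refine t4.congr' ?_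
      filter_upwards [hin, hsmall] with δ hδ hδ2
      rw [← FM_pt A b δ hδ2.1 p]
      simp only [hΨ, hΦ, Set.indicator_of_mem hδ]
    · have t1 : L p = 0 := by
        simp only [hL, Set.indicator_of_notMem hp0, zero_mul, mul_zero]
      rw [t1]
      refine tendsto_const_nhds.congr fun δ => ?_
      have hnot : pt δ p ∉ cube (n + 1) B := by
        intro h
        have := mem_cube.1 h 0
        exact hp0 (by simpa [pt, hat] using this)
      simp only [hΨ, hΦ, Set.indicator_of_notMem hnot, mul_zero]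
  have key := tendsto_integral_filter_of_dominated_convergence bd
    (hsmall.mono fun δ hδ => (hΨm δ hδ.1).aestronglyMeasurable)
    (hsmall.mono fun δ hδ => ae_of_all _ fun p => hbound δ hδ.1 hδ.2 p) hbdint hlim
  have hLint : ∫ p, L p = B * A0 * ∫ x, KK n b x := by
    have e1 : ∫ p : ℝ × (Fin n → ℝ), (Set.Icc (0:ℝ) B).indicator (fun _ => (1:ℝ)) p.1 * KK n b p.2 =
        (∫ c : ℝ, (Set.Icc (0:ℝ) B).indicator (fun _ => (1:ℝ)) c) * ∫ x, KK n b x :=
      integral_prod_mul _ _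
    rw [hL, integral_const_mul, e1, integral_indicator measurableSet_Icc]
    simp only [integral_const, measureReal_restrict_apply_univ, smul_eq_mul, mul_one]
    rw [Real.volume_real_Icc_of_le hB.le]
    ring
  rw [hLint] at key
  refine key.congr' ?_
  filter_upwards [hsmall] with δ hδ
  have hΨint : Integrable (Ψ δ) := hbdint.mono' (hΨm δ hδ.1).aestronglyMeasurable
    (ae_of_all _ fun p => hbound δ hδ.1 hδ.2 p)
  have hc : (2 * δ) ^ (((n + 1 : ℝ) ^ 2) * b) ≠ 0 := (Real.rpow_pos_of_pos (by linarith [hδ.1]) _).ne'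
  have hΦint2 : Integrable fun p : ℝ × (Fin n → ℝ) => Φ δ (pt δ p) := by
    have := hΨint.const_mul ((2 * δ) ^ (((n + 1 : ℝ) ^ 2) * b))⁻¹
    refine this.congr (ae_of_all _ fun p => ?_)
    simp only [hΨ]
    rw [← mul_assoc, inv_mul_cancel₀ hc, one_mul]
  have hΦint : Integrable (Φ δ) := by
    rw [hΦ, integrable_indicator_iff (cube_meas _ _)]
    exact (FM_cont hA hb hδ.1).continuousOn.integrableOn_compact (cube_compact _ _)
  have e1 := change hδ.1 (Φ δ) hΦint hΦint2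
  rw [hΨ, integral_const_mul, pi_restrict, ← integral_indicator (cube_meas _ _)]
  change _ = _ * ∫ h, Φ δ h
  rw [e1]
  have : δ ^ n ≠ 0 := pow_ne_zero _ hδ.1.ne'
  field_simp

end

end Pool.Agent.U899.MM
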