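import Pool.Agent.U899.MM.Uni
import Pool.Agent.U899.MM.Sup

set_option autoImplicit false

/-! Moments of moments: the two regimes, from the shifted moments. -/

namespace Pool.Agent.U899.MM

open MeasureTheory Filter Topology Finset
open Pool.Agent.N748.MG Pool.Agent.N748.MJ
open scoped ENNReal NNReal

/-- the moments of moments -/
noncomputable def MoM (d : ℝ → ℝ) (β V : ℝ) (n : ℕ) (μ : Measure ℝ) (T : ℝ) : ℝ :=
  (1 / T) * ∫ t in Set.Icc 0 T, (∫ h, gg β ((2 * d T) ^ (-V)) (d T) (t + h) ∂μ) ^ (n + 1)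

theorem FM_int (hC : S_CONV) {n : ℕ} {μ : Measure ℝ} [IsFiniteMeasure μ] {R : ℝ} (hμ : μ (Set.Icc (-R) R)ᶜ = 0)
    {β : ℝ} (hβ : 0 < β) {δ : ℝ} (hδ : 0 < δ) :
    Integrable (FM (AA β) (β * β) δ) (Measure.pi fun _ : Fin (n + 1) => μ) := by
  have h1 : Continuous (FM (AA β) (β * β) δ (n := n)) :=
    FM_cont (AA_cont hC β (n + 1)) (mul_pos hβ hβ) hδ
  have h2 : IsCompact (Set.univ.pi fun _ : Fin (n + 1) => Set.Icc (-R) R) := isCompact_univ_pi fun _ => isCompact_Icc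
  have h3 : IntegrableOn (FM (AA β) (β * β) δ) (Set.univ.pi fun _ : Fin (n + 1) => Set.Icc (-R) R)
      (Measure.pi fun _ : Fin (n + 1) => μ) := h1.continuousOn.integrableOn_compact h2
  have h4 : (Set.univ.pi fun _ : Fin (n + 1) => Set.Icc (-R) R) =ᵐ[Measure.pi fun _ : Fin (n + 1) => μ] Set.univ := by
    filter_upwards [ae_range (n := n) hμ] with h hh
    have : h ∈ (Set.univ.pi fun _ : Fin (n + 1) => Set.Icc (-R) R) := fun j _ => hh j
    exact propext ⟨fun _ => trivial, fun _ => this⟩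
  rwa [integrableOn_congr_set_ae h4, integrableOn_univ] at h3

theorem mom_lim (hSM : S_SM) (hP : S_POSV) (hC : S_CONV) {n : ℕ} {μ : Measure ℝ} [IsFiniteMeasure μ] {R : ℝ}
    (hμ : μ (Set.Icc (-R) R)ᶜ = 0) {d : ℝ → ℝ} (hd : Ad d) {β V : ℝ} (hβ : 0 < β) (hV : (n + 1 : ℝ) * β < V)
    {c : ℝ → ℝ} {L : ℝ} (hc : ∀ δ, 0 < δ → 0 ≤ c δ)
    (hL : Tendsto (fun δ => c δ * ∫ h, FM (AA β) (β * β) δ h ∂(Measure.pi fun _ : Fin (n + 1) => μ))
      (𝓝[>] 0) (𝓝 L)) :
    Tendsto (fun T => c (d T) * MoM d β V n μ T) atTop (𝓝 L) := by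
  set π : Measure (Fin (n + 1) → ℝ) := Measure.pi fun _ => μ with hπ
  have hdin : Tendsto d atTop (𝓝[>] 0) :=
    tendsto_nhdsWithin_iff.2 ⟨hd.t0, hd.pos.mono fun T hT => hT⟩
  have hL2 := hL.comp hdin
  have hd16 : ∀ᶠ T in atTop, d T ≤ 1 / 16 := hd.t0.eventually (Iic_mem_nhds (by norm_num))
  set F : ℝ → ℝ := fun T => c (d T) * ∫ h, FM (AA β) (β * β) (d T) h ∂π with hF
  have hFL : Tendsto F atTop (𝓝 L) := hL2
  -- the relative difference tends to zero
  have hkey : ∀ ε : ℝ, 0 < ε → ∀ᶠ T in atTop, |c (d T) * MoM d β V n μ T - F T| ≤ ε * F T := by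
    intro ε hε
    filter_upwards [uni (R := R) hSM hP hd hd.pos hβ hV hε, hd.pos, hd16] with T h1 h2 h3
    have h4 : ∀ h : Fin (n + 1) → ℝ, IT d β V T h =
        (1 / T) * ∫ t in Set.Icc 0 T, ∏ j, gg β ((2 * d T) ^ (-V)) (d T) (t + h j) := IT_eq h2 h3
    have hcn : 0 ≤ (2 * d T) ^ (-V) := by positivity
    obtain ⟨h5, h6⟩ := fub (μ := μ) (gg_meas (β := β) (c := (2 * d T) ^ (-V)) h2 h3)
      (C := ((2 * d T) ^ (-V)) ^ (2 * β)) (gg_le hβ hcn) n T
    have h7 : MoM d β V n μ T = ∫ h, IT d β V T h ∂π := by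
      unfold MoM
      rw [h6]
      exact integral_congr_ae (ae_of_all _ fun h => (h4 h).symm)
    have h8 : Integrable (fun h : Fin (n + 1) → ℝ => IT d β V T h) π :=
      h5.congr (ae_of_all _ fun h => (h4 h).symm)
    have h9 : Integrable (FM (AA β) (β * β) (d T)) π := FM_int hC hμ hβ h2
    have h10 : |MoM d β V n μ T - ∫ h, FM (AA β) (β * β) (d T) h ∂π| ≤ ε * ∫ h, FM (AA β) (β * β) (d T) h ∂π := by
      rw [h7, ← integral_sub h8 h9, ← integral_const_mul]
      refine (abs_integral_le_integral_abs).trans (integral_mono_ae (h8.sub h9).abs (h9.const_mul ε) ?_)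
      filter_upwards [ae_range (n := n) hμ] with h hh
      exact h1 h fun j => abs_le.2 ⟨(hh j).1, (hh j).2⟩
    rw [hF]
    simp only
    rw [← mul_sub, abs_mul, abs_of_nonneg (hc _ h2), mul_left_comm]
    exact mul_le_mul_of_nonneg_left h10 (hc _ h2)
  have hdiff : Tendsto (fun T => c (d T) * MoM d β V n μ T - F T) atTop (𝓝 0) := by
    rw [Metric.tendsto_nhds]
    intro ε hε
    set M : ℝ := |L| + 1 with hM
    have hMpos : 0 < M := by positivity
    have h1 : ∀ᶠ T in atTop, |F T| ≤ M := by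
      have h2 := hFL.abs.eventually (Iic_mem_nhds (show |L| < M by rw [hM]; linarith))
      exact h2
    filter_upwards [hkey (ε / (2 * M)) (by positivity), h1] with T h2 h3
    rw [Real.dist_eq, sub_zero]
    calc |c (d T) * MoM d β V n μ T - F T| ≤ ε / (2 * M) * F T := h2
      _ ≤ ε / (2 * M) * M := mul_le_mul_of_nonneg_left ((le_abs_self _).trans h3) (by positivity)
      _ = ε / 2 := by field_simp
      _ < ε := by linarith
  have := hdiff.add hFL
  simpa using this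

end Pool.Agent.U899.MM
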