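import Mathlib

set_option autoImplicit false

/-! Zeta near the line of real part one. -/

namespace Pool.Agent.U899.MM

open Filter Topology Complex

/-- the modulus of zeta at `1 + 2 δ + i u` -/
noncomputable def ze (δ u : ℝ) : ℝ := ‖riemannZeta (((1 + 2 * δ : ℝ) : ℂ) + (u : ℂ) * I)‖

theorem ze_nonneg (δ u : ℝ) : 0 ≤ ze δ u := norm_nonneg _

theorem ze_pos {δ u : ℝ} (hδ : 0 ≤ δ) (h : 0 < δ ∨ u ≠ 0) : 0 < ze δ u := by
  unfold ze
  rw [norm_pos_iff]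
  have hne : ((1 + 2 * δ : ℝ) : ℂ) + (u : ℂ) * I ≠ 1 := by
    intro h0
    have h1 := congrArg Complex.re h0
    have h2 := congrArg Complex.im h0
    simp at h1 h2
    rcases h with h | h
    · linarith
    · exact h h2
  refine riemannZeta_ne_zero_of_one_le_re ?_
  simp
  exact hδ

/-- `(s - 1) ζ(s)` -/
noncomputable def HH : ℂ → ℂ := Function.update (fun s => (s - 1) * riemannZeta s) 1 1

theorem HH_one : HH 1 = 1 := by simp [HH]

theorem HH_of_ne {s : ℂ} (hs : s ≠ 1) : HH s = (s - 1) * riemannZeta s := by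
  simp [HH, hs]

theorem HH_cont : Continuous HH := by
  rw [continuous_iff_continuousAt]
  intro s
  by_cases hs : s = 1
  · subst hs
    unfold HH
    rw [continuousAt_update_same]
    exact riemannZeta_residue_one
  · unfold HH
    rw [continuousAt_update_of_ne hs]
    exact (continuousAt_id.sub continuousAt_const).mul (differentiableAt_riemannZeta hs).continuousAt

theorem pt_ne {δ u : ℝ} (h : δ ≠ 0 ∨ u ≠ 0) : ((1 + 2 * δ : ℝ) : ℂ) + (u : ℂ) * I ≠ 1 := by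
  intro h0
  have h1 := congrArg Complex.re h0
  have h2 := congrArg Complex.im h0
  simp at h1 h2
  rcases h with h | h
  · exact h h1
  · exact h h2

theorem ze_mul {δ u : ℝ} (h : δ ≠ 0 ∨ u ≠ 0) :
    ‖((2 * δ : ℝ) : ℂ) + (u : ℂ) * I‖ * ze δ u = ‖HH (((1 + 2 * δ : ℝ) : ℂ) + (u : ℂ) * I)‖ := by
  rw [HH_of_ne (pt_ne h), norm_mul]
  unfold ze
  congr 2
  push_cast
  ring

theorem ze_cont {δ : ℝ} (hδ : 0 < δ) : Continuous (ze δ) := by
  rw [continuous_iff_continuousAt]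
  intro u
  unfold ze
  have h1 := (differentiableAt_riemannZeta (pt_ne (u := u) (Or.inl hδ.ne'))).continuousAt
  exact (ContinuousAt.comp (f := fun u : ℝ => ((1 + 2 * δ : ℝ) : ℂ) + (u : ℂ) * I) h1
    (by fun_prop)).norm

/-- the bound by the distance to the pole -/
theorem ze_bound (R : ℝ) : ∃ C : ℝ, 0 < C ∧ ∀ δ u : ℝ, 0 < δ → δ ≤ 1 / 16 → |u| ≤ R →
    ‖((2 * δ : ℝ) : ℂ) + (u : ℂ) * I‖ * ze δ u ≤ C := by
  have hK : IsCompact (Set.Icc (0 : ℝ) (1 / 16) ×ˢ Set.Icc (-R) R) := isCompact_Icc.prod isCompact_Icc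
  have hc : Continuous fun p : ℝ × ℝ => HH (((1 + 2 * p.1 : ℝ) : ℂ) + (p.2 : ℂ) * I) :=
    HH_cont.comp (by fun_prop)
  obtain ⟨C, hC⟩ := hK.exists_bound_of_continuousOn hc.continuousOn
  refine ⟨max C 1, lt_max_of_lt_right one_pos, fun δ u h1 h2 h3 => ?_⟩
  rw [ze_mul (Or.inl h1.ne')]
  exact (hC (δ, u) ⟨⟨h1.le, h2⟩, abs_le.1 h3⟩).trans (le_max_left _ _)

theorem ze_lim {u : ℝ} (hu : u ≠ 0) : Tendsto (fun δ => ze δ u) (𝓝 0) (𝓝 (ze 0 u)) := by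
  unfold ze
  have h1 := (differentiableAt_riemannZeta (pt_ne (δ := 0) (Or.inr hu))).continuousAt
  have h2 : ContinuousAt (fun δ : ℝ => ((1 + 2 * δ : ℝ) : ℂ) + (u : ℂ) * I) 0 := by fun_prop
  exact (ContinuousAt.comp (f := fun δ : ℝ => ((1 + 2 * δ : ℝ) : ℂ) + (u : ℂ) * I) h1 h2).norm

/-- at the scale of the distance to the line -/
theorem ze_scaled (u : ℝ) : Tendsto (fun δ => 2 * δ * ze δ (δ * u)) (𝓝[>] 0)
    (𝓝 ((1 + (u / 2) ^ 2) ^ (-(1 / 2) : ℝ))) := by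
  have h1 : Tendsto (fun δ : ℝ => ‖HH (((1 + 2 * δ : ℝ) : ℂ) + ((δ * u : ℝ) : ℂ) * I)‖) (𝓝[>] 0) (𝓝 1) := by
    have h2 : ContinuousAt (fun δ : ℝ => ‖HH (((1 + 2 * δ : ℝ) : ℂ) + ((δ * u : ℝ) : ℂ) * I)‖) 0 :=
      (HH_cont.comp (by fun_prop)).norm.continuousAt
    have h3 := h2.tendsto
    simp only [mul_zero, add_zero, zero_mul, Complex.ofReal_one, Complex.ofReal_zero, HH_one, norm_one] at h3
    exact h3.mono_left nhdsWithin_le_nhds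
  have h4 : (1 + (u / 2) ^ 2 : ℝ) ^ (-(1 / 2) : ℝ) = 2 / ‖(2 : ℂ) + (u : ℂ) * I‖ := by
    have h5 : ‖(2 : ℂ) + (u : ℂ) * I‖ = 2 * Real.sqrt (1 + (u / 2) ^ 2) := by
      have h6 := Complex.norm_add_mul_I 2 u
      push_cast at h6
      rw [h6]
      rw [show (2 : ℝ) ^ 2 + u ^ 2 = 2 ^ 2 * (1 + (u / 2) ^ 2) by ring, Real.sqrt_mul (by norm_num),
        Real.sqrt_sq (by norm_num)]
    rw [h5, Real.rpow_neg (by positivity), ← Real.sqrt_eq_rpow]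
    have : 0 < Real.sqrt (1 + (u / 2) ^ 2) := Real.sqrt_pos.2 (by positivity)
    field_simp
  rw [h4]
  have h7 : Tendsto (fun δ : ℝ => 2 / ‖(2 : ℂ) + (u : ℂ) * I‖ *
      ‖HH (((1 + 2 * δ : ℝ) : ℂ) + ((δ * u : ℝ) : ℂ) * I)‖) (𝓝[>] 0) (𝓝 (2 / ‖(2 : ℂ) + (u : ℂ) * I‖)) := by
    simpa using h1.const_mul (2 / ‖(2 : ℂ) + (u : ℂ) * I‖)
  refine h7.congr' ?_
  filter_upwards [self_mem_nhdsWithin] with δ hδ
  have hδ : 0 < δ := hδ
  rw [← ze_mul (Or.inl hδ.ne')]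
  have h8 : ((2 * δ : ℝ) : ℂ) + ((δ * u : ℝ) : ℂ) * I = (δ : ℂ) * ((2 : ℂ) + (u : ℂ) * I) := by
    push_cast; ring
  rw [h8, norm_mul, Complex.norm_real, Real.norm_of_nonneg hδ.le]
  have h9 : 0 < ‖(2 : ℂ) + (u : ℂ) * I‖ := by
    rw [norm_pos_iff]
    intro h
    have := congrArg Complex.re h
    simp at this
  field_simp

/-- on the diagonal -/
theorem ze_diag : Tendsto (fun δ => 2 * δ * ze δ 0) (𝓝[>] 0) (𝓝 1) := by
  have h := ze_scaled 0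
  simpa using h

/-- the lower bound of the distance to the pole -/
theorem norm_pt (δ u : ℝ) : ‖((2 * δ : ℝ) : ℂ) + (u : ℂ) * I‖ = Real.sqrt ((2 * δ) ^ 2 + u ^ 2) :=
  Complex.norm_add_mul_I _ _

/-- the bound by the distance of the ordinates -/
theorem ze_le (R : ℝ) : ∃ C : ℝ, 0 < C ∧ ∀ δ u : ℝ, 0 < δ → δ ≤ 1 / 16 → |u| ≤ R →
    |u| * ze δ u ≤ C ∧ 2 * δ * ze δ u ≤ C ∧ ∀ v : ℝ, u = δ * v →
      2 * δ * ze δ u ≤ C * (1 + (v / 2) ^ 2) ^ (-(1 / 2) : ℝ) := by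
  obtain ⟨C, hC, h⟩ := ze_bound R
  refine ⟨C, hC, fun δ u h1 h2 h3 => ?_⟩
  have h4 := h δ u h1 h2 h3
  rw [norm_pt] at h4
  have h0 := ze_nonneg δ u
  refine ⟨?_, ?_, fun v hv => ?_⟩
  · refine le_trans (mul_le_mul_of_nonneg_right ?_ h0) h4
    refine Real.le_sqrt_of_sq_le ?_
    rw [sq_abs]
    nlinarith [sq_nonneg (2 * δ)]
  · refine le_trans (mul_le_mul_of_nonneg_right ?_ h0) h4
    refine Real.le_sqrt_of_sq_le ?_
    nlinarith [sq_nonneg u]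
  · rw [hv, show (2 * δ) ^ 2 + (δ * v) ^ 2 = (2 * δ) ^ 2 * (1 + (v / 2) ^ 2) by ring,
      Real.sqrt_mul (sq_nonneg _), Real.sqrt_sq (by positivity)] at h4
    have hs : 0 < Real.sqrt (1 + (v / 2) ^ 2) := Real.sqrt_pos.2 (by positivity)
    rw [Real.rpow_neg (by positivity), ← Real.sqrt_eq_rpow, hv, ← div_eq_mul_inv, le_div_iff₀ hs]
    linarith

end Pool.Agent.U899.MM
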