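import Pool.Agent.U899.MM.Int
import Pool.Agent.U899.MM.Zt

set_option autoImplicit false

/-! The main term: measures with bounded Riesz potential. -/

namespace Pool.Agent.U899.MM

open MeasureTheory Filter Topology Finset
open scoped ENNReal NNReal

theorem prod_compl {M : Type*} [CommMonoid M] {n : ℕ} (j : Fin (n + 1)) (f : Fin (n + 1) → M) :
    ∏ l ∈ ({j}ᶜ : Finset (Fin (n + 1))), f l = ∏ l : Fin n, f (j.succAbove l) := by
  rw [← Fin.image_succAbove_univ, Finset.prod_image (fun a _ b _ h => Fin.succAbove_right_injective h)]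

theorem prod_split {M : Type*} [CommMonoid M] {n : ℕ} (j : Fin (n + 1)) (f : Fin (n + 1) → M) :
    ∏ l, f l = f j * ∏ l ∈ ({j}ᶜ : Finset (Fin (n + 1))), f l := by
  rw [prod_compl, Fin.prod_univ_succAbove f j]

/-- the Riesz kernel -/
noncomputable def rk (a u : ℝ) : ℝ≥0∞ := (ENNReal.ofReal |u|) ^ (-a)

theorem rk_meas (a : ℝ) : Measurable (rk a) := by
  unfold rk
  exact (ENNReal.measurable_ofReal.comp (by fun_prop : Measurable fun u : ℝ => |u|)).pow_const _

theorem rk_zero {a : ℝ} (ha : 0 < a) : rk a 0 = ⊤ := by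
  unfold rk
  rw [abs_zero, ENNReal.ofReal_zero, ENNReal.zero_rpow_of_neg (by linarith)]

theorem rk_ne_zero {a : ℝ} (ha : 0 < a) (u : ℝ) : rk a u ≠ 0 := by
  unfold rk
  intro h
  rw [ENNReal.rpow_eq_zero_iff] at h
  rcases h with ⟨_, h⟩ | ⟨h, _⟩
  · linarith
  · exact ENNReal.ofReal_ne_top h

theorem ofReal_le_rk {a : ℝ} (ha : 0 < a) (u : ℝ) : ENNReal.ofReal (|u| ^ (-a)) ≤ rk a u := by
  rcases eq_or_ne u 0 with h | h
  · subst h; rw [rk_zero ha]; exact le_top
  · unfold rk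
    rw [ENNReal.ofReal_rpow_of_pos (abs_pos.2 h)]

/-- bounded Riesz potential -/
def Riesz (a : ℝ) (μ : Measure ℝ) : Prop := ∃ C : ℝ≥0, ∀ x, ∫⁻ y, rk a (x - y) ∂μ ≤ C

section

variable {n : ℕ} {μ : Measure ℝ} [IsFiniteMeasure μ] {a : ℝ}

theorem star_lt_top (hR : Riesz a μ) (j : Fin (n + 1)) :
    ∫⁻ h : Fin (n + 1) → ℝ, ∏ l : Fin n, rk a (h j - h (j.succAbove l)) ∂(Measure.pi fun _ => μ) < ⊤ := by
  obtain ⟨C, hC⟩ := hR
  have h1 := lint_star μ j (fun _ => 1) (fun x y => rk a (x - y)) measurable_const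
    ((rk_meas a).comp (measurable_fst.sub measurable_snd))
  simp only [one_mul] at h1
  rw [h1]
  calc ∫⁻ x, (∫⁻ y, rk a (x - y) ∂μ) ^ n ∂μ ≤ ∫⁻ _x, (C : ℝ≥0∞) ^ n ∂μ :=
        lintegral_mono fun x => pow_le_pow_left' (hC x) n
    _ = (C : ℝ≥0∞) ^ n * μ Set.univ := by rw [lintegral_const]
    _ < ⊤ := ENNReal.mul_lt_top (ENNReal.pow_lt_top ENNReal.coe_lt_top) (measure_lt_top _ _)

theorem star_meas (a : ℝ) (j : Fin (n + 1)) :
    Measurable fun h : Fin (n + 1) → ℝ => ∏ l : Fin n, rk a (h j - h (j.succAbove l)) :=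
  Finset.measurable_prod _ fun l _ => (rk_meas a).comp (by fun_prop)

theorem ae_distinct (ha : 0 < a) (hR : Riesz a μ) :
    ∀ᵐ h : Fin (n + 1) → ℝ ∂(Measure.pi fun _ => μ), ∀ j : Fin (n + 1), ∀ l ∈ ({j}ᶜ : Finset (Fin (n + 1))),
      h j - h l ≠ 0 := by
  rw [ae_all_iff]
  intro j
  filter_upwards [ae_lt_top (star_meas a j) (star_lt_top hR j).ne] with h hh l hl h0
  have hl' : l ≠ j := by simpa using hl
  obtain ⟨l', rfl⟩ := Fin.exists_succAbove_eq hl'
  rw [← Finset.mul_prod_erase Finset.univ _ (Finset.mem_univ l'), h0, rk_zero ha, ENNReal.top_mul] at hh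
  · exact absurd hh (lt_irrefl _)
  · exact Finset.prod_ne_zero_iff.2 fun i _ => rk_ne_zero ha _

/-- the dominating function -/
noncomputable def Dom (a : ℝ) (h : Fin (n + 1) → ℝ) : ℝ :=
  ∑ j, ∏ l ∈ ({j}ᶜ : Finset (Fin (n + 1))), |h j - h l| ^ (-a)

theorem Dom_meas (a : ℝ) : Measurable (Dom (n := n) a) := by
  unfold Dom
  refine Finset.measurable_sum _ fun j _ => Finset.measurable_prod _ fun l _ => ?_
  fun_prop

theorem Dom_int (ha : 0 < a) (hR : Riesz a μ) : Integrable (Dom (n := n) a) (Measure.pi fun _ => μ) := by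
  unfold Dom
  refine integrable_finsetSum _ fun j _ => ?_
  refine ⟨(Finset.measurable_prod _ fun l _ => by fun_prop).aestronglyMeasurable, ?_⟩
  rw [hasFiniteIntegral_iff_ofReal (ae_of_all _ fun h => Finset.prod_nonneg fun l _ => by positivity)]
  refine lt_of_le_of_lt (lintegral_mono fun h => ?_) (star_lt_top hR j)
  rw [ENNReal.ofReal_prod_of_nonneg (fun l _ => by positivity), prod_compl]
  exact Finset.prod_le_prod' fun l _ => ofReal_le_rk ha _

/-- the comparison of the product with the sum over the stars -/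
theorem prod_le_dom (b C : ℝ) (hb : 0 ≤ b) (hC : 0 ≤ C) (h : Fin (n + 1) → ℝ) (w : Fin (n + 1) → Fin (n + 1) → ℝ)
    (hw : ∀ j, ∀ l ∈ ({j}ᶜ : Finset (Fin (n + 1))), 0 ≤ w j l ∧ w j l ≤ C * |h j - h l| ^ (-(1 : ℝ))) :
    ∏ j, ∏ l ∈ ({j}ᶜ : Finset (Fin (n + 1))), w j l ^ b ≤
      ((C ^ b) ^ n) ^ (n + 1) * Dom ((n + 1 : ℝ) * b) h := by
  have h1 : ∏ j, ∏ l ∈ ({j}ᶜ : Finset (Fin (n + 1))), w j l ^ b ≤
      ∏ j : Fin (n + 1), ((C ^ b) ^ n * ∏ l ∈ ({j}ᶜ : Finset (Fin (n + 1))), |h j - h l| ^ (-b)) := by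
    refine Finset.prod_le_prod (fun j _ => Finset.prod_nonneg fun l hl => Real.rpow_nonneg (hw j l hl).1 _)
      fun j _ => ?_
    calc ∏ l ∈ ({j}ᶜ : Finset (Fin (n + 1))), w j l ^ b ≤
        ∏ l ∈ ({j}ᶜ : Finset (Fin (n + 1))), (C ^ b * |h j - h l| ^ (-b)) := by
          refine Finset.prod_le_prod (fun l hl => Real.rpow_nonneg (hw j l hl).1 _) fun l hl => ?_
          refine (Real.rpow_le_rpow (hw j l hl).1 (hw j l hl).2 hb).trans (le_of_eq ?_)
          rw [Real.mul_rpow hC (by positivity), ← Real.rpow_mul (abs_nonneg _), neg_one_mul]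
      _ = _ := by
          rw [Finset.prod_mul_distrib, Finset.prod_const, Finset.card_compl, Finset.card_singleton,
            Fintype.card_fin, Nat.add_sub_cancel]
  refine h1.trans ?_
  rw [Finset.prod_mul_distrib, Finset.prod_const, Finset.card_univ, Fintype.card_fin]
  refine mul_le_mul_of_nonneg_left ?_ (by positivity)
  refine (prod_le_sum_pow_real _ fun j => Finset.prod_nonneg fun l _ => by positivity).trans (le_of_eq ?_)
  unfold Dom
  refine Finset.sum_congr rfl fun j _ => ?_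
  rw [← Finset.prod_pow]
  refine Finset.prod_congr rfl fun l _ => ?_
  rw [← Real.rpow_natCast, ← Real.rpow_mul (abs_nonneg _)]
  congr 1
  push_cast
  ring

end

end Pool.Agent.U899.MM
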