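import Pool.Agent.U899.MM.Arith
import Pool.Agent.U899.MM.SubLim

set_option autoImplicit false

/-! Uniformity in the shifts, and Fubini. -/

namespace Pool.Agent.U899.MM

open MeasureTheory Filter Topology Finset
open Pool.Agent.N748.MG Pool.Agent.N748.MJ
open scoped ENNReal NNReal

/-- the truncated shifted moment -/
noncomputable def IT (d : ℝ → ℝ) (β V : ℝ) {m : ℕ} (T : ℝ) (h : Fin m → ℝ) : ℝ :=
  (1 / T) * ∫ t in {t : ℝ | t ∈ Set.Icc 0 T ∧ ∀ j, mz (d T) (t + h j) ≤ (2 * d T) ^ (-V)},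
    ∏ j, mz (d T) (t + h j) ^ (2 * β)

theorem FM_AA (β δ : ℝ) {n : ℕ} (h : Fin (n + 1) → ℝ) : FM (AA β) (β * β) δ h =
    (aV (fun _ => (β : ℂ)) (fun _ => (β : ℂ)) h).re *
      ∏ j, ∏ l, ‖riemannZeta (((1 + 2 * δ : ℝ) : ℂ) + ((h j - h l : ℝ) : ℂ) * Complex.I)‖ ^ (β * β) := rfl

theorem FM_pos (hP : S_POSV) (β : ℝ) {δ : ℝ} (hδ : 0 < δ) {n : ℕ} (h : Fin (n + 1) → ℝ) :
    0 < FM (AA β) (β * β) δ h := by
  obtain ⟨c, C, hc, h1⟩ := AA_bd hP β (n + 1)
  refine mul_pos (hc.trans_le (h1 h).1) (Finset.prod_pos fun j _ => Finset.prod_pos fun l _ => ?_)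
  exact Real.rpow_pos_of_pos (ze_pos hδ.le (Or.inl hδ)) _

theorem uni (hSM : S_SM) (hP : S_POSV) {d : ℝ → ℝ} (hd : Ad d) (hd0 : ∀ᶠ T in atTop, 0 < d T) {n : ℕ} {β V R : ℝ}
    (hβ : 0 < β) (hV : (n + 1 : ℝ) * β < V) {ε : ℝ} (hε : 0 < ε) :
    ∀ᶠ T in atTop, ∀ h : Fin (n + 1) → ℝ, (∀ j, |h j| ≤ R) →
      |IT d β V T h - FM (AA β) (β * β) (d T) h| ≤ ε * FM (AA β) (β * β) (d T) h := by
  classical
  set P : ℝ → (Fin (n + 1) → ℝ) → Prop := fun T h => (∀ j, |h j| ≤ R) ∧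
    ¬ |IT d β V T h - FM (AA β) (β * β) (d T) h| ≤ ε * FM (AA β) (β * β) (d T) h with hPd
  set H : ℝ → Fin (n + 1) → ℝ := fun T => if hT : ∃ h, P T h then hT.choose else fun _ => 0 with hH
  have hHR : ∀ T j, |H T j| ≤ |R| := by
    intro T j
    rw [hH]
    by_cases hT : ∃ h, P T h
    · simp only [dif_pos hT]
      exact (hT.choose_spec.1 j).trans (le_abs_self R)
    · simp only [dif_neg hT, abs_zero]
      exact abs_nonneg R
  have hgrow : ∀ᶠ T : ℝ in atTop, ∀ j, |H T j| ≤ T ^ ((1:ℝ) / 2) := by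
    have h1 := tendsto_rpow_atTop (by norm_num : (0:ℝ) < 1 / 2)
    filter_upwards [h1.eventually (eventually_ge_atTop |R|)] with T hT j
    exact (hHR T j).trans hT
  have key := hSM d hd (n + 1) (fun _ => β) V (fun _ => hβ) (by
    rw [Finset.sum_const, Finset.card_univ, Fintype.card_fin, nsmul_eq_mul]; push_cast; exact hV) H hgrow
  have h2 : ∀ᶠ T : ℝ in atTop, |IT d β V T (H T) / FM (AA β) (β * β) (d T) (H T) - 1| < ε := by
    have h3 := (Metric.tendsto_nhds.1 key) ε hε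
    filter_upwards [h3] with T hT
    exact hT
  filter_upwards [h2, hd0] with T hT hdT
  by_contra hcon
  push Not at hcon
  obtain ⟨h, hh, hh2⟩ := hcon
  have hex : ∃ h, P T h := ⟨h, hh, not_le.2 hh2⟩
  have hHT : H T = hex.choose := by rw [hH]; simp only [dif_pos hex]
  have hbad := hex.choose_spec.2
  rw [← hHT] at hbad
  have hF := FM_pos hP β hdT (H T)
  apply hbad
  have h4 : IT d β V T (H T) - FM (AA β) (β * β) (d T) (H T) =
      (IT d β V T (H T) / FM (AA β) (β * β) (d T) (H T) - 1) * FM (AA β) (β * β) (d T) (H T) := by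
    rw [sub_mul, one_mul, div_mul_cancel₀ _ hF.ne']
  rw [h4, abs_mul, abs_of_pos hF]
  exact mul_le_mul_of_nonneg_right hT.le hF.le

theorem mz_cont {δ : ℝ} (hδ : 0 < δ) (hδ2 : δ ≤ 1 / 16) : Continuous (mz δ) := by
  unfold mz pw
  refine continuous_iff_continuousAt.2 fun t => ?_
  have h1 : (1 / 2 + (δ : ℂ) + (t : ℂ) * Complex.I) ≠ 1 := by
    intro h
    have := congrArg Complex.re h
    simp at this
    linarith
  have h2 : Continuous fun t : ℝ => (1 / 2 + (δ : ℂ) + (t : ℂ) * Complex.I) := by fun_prop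
  exact ((differentiableAt_riemannZeta h1).continuousAt.comp (f := fun t : ℝ =>
    (1 / 2 + (δ : ℂ) + (t : ℂ) * Complex.I)) h2.continuousAt).norm

/-- the truncated density -/
noncomputable def gg (β c δ u : ℝ) : ℝ := if mz δ u ≤ c then mz δ u ^ (2 * β) else 0

theorem gg_meas {β c δ : ℝ} (hδ : 0 < δ) (hδ2 : δ ≤ 1 / 16) : Measurable (gg β c δ) := by
  unfold gg
  have h1 := (mz_cont hδ hδ2).measurable
  exact Measurable.ite (h1 measurableSet_Iic) (h1.pow_const _) measurable_const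

theorem mz_nonneg (δ u : ℝ) : 0 ≤ mz δ u := norm_nonneg _

theorem gg_nonneg (β c δ u : ℝ) : 0 ≤ gg β c δ u := by
  unfold gg
  split_ifs
  · exact Real.rpow_nonneg (mz_nonneg _ _) _
  · exact le_rfl

theorem gg_le {β c δ : ℝ} (hβ : 0 < β) (hc : 0 ≤ c) (u : ℝ) : |gg β c δ u| ≤ c ^ (2 * β) := by
  rw [abs_of_nonneg (gg_nonneg _ _ _ _)]
  unfold gg
  split_ifs with h
  · exact Real.rpow_le_rpow (mz_nonneg _ _) h (by linarith)
  · exact Real.rpow_nonneg hc _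

theorem IT_eq {d : ℝ → ℝ} {β V T : ℝ} (hδ : 0 < d T) (hδ2 : d T ≤ 1 / 16) {m : ℕ} (h : Fin m → ℝ) :
    IT d β V T h = (1 / T) * ∫ t in Set.Icc 0 T, ∏ j, gg β ((2 * d T) ^ (-V)) (d T) (t + h j) := by
  unfold IT
  congr 1
  set S : Set ℝ := {t : ℝ | ∀ j, mz (d T) (t + h j) ≤ (2 * d T) ^ (-V)} with hS
  have hSm : MeasurableSet S := by
    have : S = ⋂ j, {t : ℝ | mz (d T) (t + h j) ≤ (2 * d T) ^ (-V)} := by
      ext t; simp only [hS, Set.mem_iInter]; rfl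
    rw [this]
    refine MeasurableSet.iInter fun j => measurableSet_le ?_ measurable_const
    exact (mz_cont hδ hδ2).measurable.comp (by fun_prop)
  have h1 : {t : ℝ | t ∈ Set.Icc 0 T ∧ ∀ j, mz (d T) (t + h j) ≤ (2 * d T) ^ (-V)} = Set.Icc 0 T ∩ S := rfl
  rw [h1, ← setIntegral_indicator hSm]
  refine setIntegral_congr_fun measurableSet_Icc fun t _ => ?_
  by_cases ht : t ∈ S
  · rw [Set.indicator_of_mem ht]
    refine Finset.prod_congr rfl fun j _ => ?_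
    unfold gg
    rw [if_pos (ht j)]
  · rw [Set.indicator_of_notMem ht]
    have : ∃ j, ¬ mz (d T) (t + h j) ≤ (2 * d T) ^ (-V) := by
      by_contra hcon
      push Not at hcon
      exact ht hcon
    obtain ⟨j, hj⟩ := this
    symm
    refine Finset.prod_eq_zero (Finset.mem_univ j) ?_
    unfold gg
    rw [if_neg hj]

theorem fub {μ : Measure ℝ} [IsFiniteMeasure μ] {g : ℝ → ℝ} (hg : Measurable g) {C : ℝ} (hC : ∀ u, |g u| ≤ C)
    (n : ℕ) (T : ℝ) :
    Integrable (fun h : Fin (n + 1) → ℝ => (1 / T) * ∫ t in Set.Icc (0:ℝ) T, ∏ j, g (t + h j))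
      (Measure.pi fun _ : Fin (n + 1) => μ) ∧
    (1 / T) * ∫ t in Set.Icc 0 T, (∫ h, g (t + h) ∂μ) ^ (n + 1) =
      ∫ h : Fin (n + 1) → ℝ, ((1 / T) * ∫ t in Set.Icc (0:ℝ) T, ∏ j, g (t + h j))
        ∂(Measure.pi fun _ : Fin (n + 1) => μ) := by
  set ν : Measure ℝ := volume.restrict (Set.Icc 0 T) with hν
  set π : Measure (Fin (n + 1) → ℝ) := Measure.pi fun _ => μ with hπ
  have hm : Measurable fun q : ℝ × (Fin (n + 1) → ℝ) => ∏ j, g (q.1 + q.2 j) :=
    Finset.measurable_prod _ fun j _ => hg.comp (by fun_prop)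
  have hb : ∀ q : ℝ × (Fin (n + 1) → ℝ), ‖∏ j, g (q.1 + q.2 j)‖ ≤ C ^ (n + 1) := by
    intro q
    rw [norm_prod]
    refine (Finset.prod_le_prod (fun j _ => norm_nonneg _) fun j _ => (hC _ : ‖g (q.1 + q.2 j)‖ ≤ C)).trans ?_
    rw [Finset.prod_const, Finset.card_univ, Fintype.card_fin]
  have hint : Integrable (fun q : ℝ × (Fin (n + 1) → ℝ) => ∏ j, g (q.1 + q.2 j)) (ν.prod π) :=
    Integrable.of_bound hm.aestronglyMeasurable _ (ae_of_all _ hb)
  refine ⟨(hint.integral_prod_right).const_mul _, ?_⟩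
  rw [integral_const_mul]
  congr 1
  have h1 : ∫ h, ∫ t, ∏ j, g (t + h j) ∂ν ∂π = ∫ t, ∫ h, ∏ j, g (t + h j) ∂π ∂ν :=
    (integral_integral_swap hint).symm
  rw [h1]
  refine integral_congr_ae (ae_of_all _ fun t => ?_)
  have h2 := integral_fintype_prod_eq_pow (ι := Fin (n + 1)) (fun x : ℝ => g (t + x)) (μ := μ)
  simp only [Fintype.card_fin] at h2
  exact h2.symm

end Pool.Agent.U899.MM
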